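import Mathlib

/-! Coanalytic predicates and codes for Borel sets. -/

namespace Pool.Agent.P.MP_ceb5ee_gt

open MeasureTheory Set

/-- `P` is a universal quantification of a measurable predicate over a standard Borel space. -/
def CoAn {α : Type*} [MeasurableSpace α] (P : α → Prop) : Prop :=
  ∃ (W : Type) (_ : MeasurableSpace W) (_ : StandardBorelSpace W) (_ : Nonempty W)
    (R : α × W → Prop), Measurable R ∧ ∀ a, P a ↔ ∀ w, R (a, w)

section CoAn

variable {α β : Type*} [MeasurableSpace α] [MeasurableSpace β]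

lemma CoAn.of_measurable {P : α → Prop} (h : Measurable P) : CoAn P :=
  ⟨Unit, inferInstance, inferInstance, inferInstance, fun x => P x.1, h.comp measurable_fst,
    fun a => by simp⟩

lemma CoAn.comp {P : β → Prop} (h : CoAn P) {f : α → β} (hf : Measurable f) :
    CoAn fun a => P (f a) := by
  obtain ⟨W, i1, i2, i3, R, hR, h⟩ := h
  exact ⟨W, i1, i2, i3, fun x => R (f x.1, x.2),
    hR.comp ((hf.comp measurable_fst).prodMk measurable_snd), fun a => h (f a)⟩

lemma CoAn.and {P Q : α → Prop} (hP : CoAn P) (hQ : CoAn Q) : CoAn fun a => P a ∧ Q a := by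
  obtain ⟨W, i1, i2, i3, R, hR, h⟩ := hP
  obtain ⟨W', j1, j2, j3, R', hR', h'⟩ := hQ
  refine ⟨W × W', inferInstance, inferInstance, inferInstance,
    fun x => R (x.1, x.2.1) ∧ R' (x.1, x.2.2),
    (hR.comp (measurable_fst.prodMk measurable_snd.fst)).and
      (hR'.comp (measurable_fst.prodMk measurable_snd.snd)), fun a => ?_⟩
  simp [h, h', forall_and]

lemma CoAn.imp {M P : α → Prop} (hM : Measurable M) (hP : CoAn P) : CoAn fun a => M a → P a := by
  obtain ⟨W, i1, i2, i3, R, hR, h⟩ := hP
  refine ⟨W, i1, i2, i3, fun x => M x.1 → R x, (hM.comp measurable_fst).imp hR, fun a => ?_⟩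
  simp only [h]
  exact ⟨fun H w m => H m w, fun H m w => H w m⟩

lemma CoAn.exists_nat {P : α × ℕ → Prop} (hP : CoAn P) : CoAn fun a => ∃ k, P (a, k) := by
  obtain ⟨W, i1, i2, i3, R, hR, h⟩ := hP
  refine ⟨ℕ → W, inferInstance, inferInstance, inferInstance,
    fun x => ∃ k, R ((x.1, k), x.2 k), Measurable.exists fun k =>
      hR.comp ((measurable_fst.prodMk measurable_const).prodMk
        ((measurable_pi_apply k).comp measurable_snd)), fun a => ?_⟩
  simp only [h]
  constructor
  · rintro ⟨k, hk⟩ f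
    exact ⟨k, hk _⟩
  · intro H
    by_contra hc
    push Not at hc
    choose f hf using hc
    obtain ⟨k, hk⟩ := H f
    exact hf k hk

lemma CoAn.forall {γ : Type} [MeasurableSpace γ] [StandardBorelSpace γ] [Nonempty γ]
    {P : α × γ → Prop} (hP : CoAn P) : CoAn fun a => ∀ b, P (a, b) := by
  obtain ⟨W, i1, i2, i3, R, hR, h⟩ := hP
  refine ⟨γ × W, inferInstance, inferInstance, inferInstance,
    fun x => R ((x.1, x.2.1), x.2.2),
    hR.comp ((measurable_fst.prodMk measurable_snd.fst).prodMk measurable_snd.snd), fun a => ?_⟩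
  simp [h]

lemma CoAn.analyticSet_compl {X : Type*} [TopologicalSpace X] [PolishSpace X] [MeasurableSpace X]
    [BorelSpace X] {P : X → Prop} (hP : CoAn P) : AnalyticSet {a | P a}ᶜ := by
  obtain ⟨W, i1, i2, i3, R, hR, h⟩ := hP
  have := hR.not.setOf.analyticSet_image (measurable_fst (α := X) (β := W))
  convert this using 1
  ext a
  simp [h]

end CoAn

section Codes

variable {X : Type*} (O : ℕ → Set X)

/-- Evaluation of a code at a point: a node is either a leaf labelled by a union of basic sets,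
or the negated disjunction of its children. -/
inductive V (c : List ℕ × Option ℕ → Prop) (x : X) : List ℕ → Bool → Prop
  | leafT (u : List ℕ) (i : ℕ) : c (u, none) → c (u, some i) → x ∈ O i → V c x u true
  | leafF (u : List ℕ) : c (u, none) → (∀ i, c (u, some i) → x ∉ O i) → V c x u false
  | nodeT (u : List ℕ) : ¬ c (u, none) → (∀ n, V c x (u ++ [n]) false) → V c x u true
  | nodeF (u : List ℕ) (n : ℕ) : ¬ c (u, none) → V c x (u ++ [n]) true → V c x u false

variable {O}

lemma V.not_both {c : List ℕ × Option ℕ → Prop} {x : X} {u : List ℕ} {b : Bool}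
    (h : V O c x u b) : ¬ V O c x u (!b) := by
  induction h with
  | leafT u i h1 h2 h3 =>
    intro h
    cases h with
    | leafF _ _ k => exact k i h2 h3
    | nodeF _ _ k _ => exact k h1
  | leafF u h1 h2 =>
    intro h
    cases h with
    | leafT _ i _ k1 k2 => exact h2 i k1 k2
    | nodeT _ k _ => exact k h1
  | nodeT u h1 _ ih =>
    intro h
    cases h with
    | leafF _ k _ => exact h1 k
    | nodeF _ n _ k => exact ih n k
  | nodeF u n h1 _ ih =>
    intro h
    cases h with
    | leafT _ _ k _ _ => exact h1 k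
    | nodeT _ _ k => exact ih (k n)

variable (O) in
/-- `S` is closed under the evaluation rules. -/
def Closed (c : List ℕ × Option ℕ → Prop) (x : X) (S : List ℕ × Bool → Prop) : Prop :=
  ∀ u : List ℕ, (∀ i, c (u, none) → c (u, some i) → x ∈ O i → S (u, true)) ∧
    (c (u, none) → (∀ i, c (u, some i) → x ∉ O i) → S (u, false)) ∧
    (¬ c (u, none) → (∀ n, S (u ++ [n], false)) → S (u, true)) ∧
    (∀ n, ¬ c (u, none) → S (u ++ [n], true) → S (u, false))

lemma V_iff {c : List ℕ × Option ℕ → Prop} {x : X} {u : List ℕ} {b : Bool} :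
    V O c x u b ↔ ∀ S, Closed O c x S → S (u, b) := by
  constructor
  · intro h S hS
    induction h with
    | leafT u i h1 h2 h3 => exact (hS u).1 i h1 h2 h3
    | leafF u h1 h2 => exact (hS u).2.1 h1 h2
    | nodeT u h1 _ ih => exact (hS u).2.2.1 h1 ih
    | nodeF u n h1 _ ih => exact (hS u).2.2.2 n h1 ih
  · intro h
    exact h (fun p => V O c x p.1 p.2) fun u =>
      ⟨V.leafT u, V.leafF u, V.nodeT u, V.nodeF u⟩

lemma coAn_V [MeasurableSpace X] (hO : ∀ i, MeasurableSet (O i)) (b : Bool) :
    CoAn fun p : (List ℕ × Option ℕ → Prop) × X => V O p.1 p.2 [] b := by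
  have hc : ∀ i, Measurable fun p : ((List ℕ × Option ℕ → Prop) × X) × (List ℕ × Bool → Prop) =>
      p.1.1 i := fun i => (measurable_pi_apply i).comp measurable_fst.fst
  have hS : ∀ i, Measurable fun p : ((List ℕ × Option ℕ → Prop) × X) × (List ℕ × Bool → Prop) =>
      p.2 i := fun i => (measurable_pi_apply i).comp measurable_snd
  have hx : ∀ i, Measurable fun p : ((List ℕ × Option ℕ → Prop) × X) × (List ℕ × Bool → Prop) =>
      p.1.2 ∈ O i := fun i => (hO i).mem.comp measurable_fst.snd
  refine ⟨List ℕ × Bool → Prop, inferInstance, inferInstance, inferInstance,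
    fun p => Closed O p.1.1 p.1.2 p.2 → p.2 ([], b), Measurable.imp ?_ (hS _), fun a => V_iff⟩
  exact Measurable.forall fun u =>
    (Measurable.forall fun i => (hc _).imp ((hc _).imp ((hx i).imp (hS _)))).and
    (((hc _).imp ((Measurable.forall fun i => (hc _).imp (hx i).not).imp (hS _))).and
    (((hc _).not.imp ((Measurable.forall fun n => hS _).imp (hS _))).and
    (Measurable.forall fun n => (hc _).not.imp ((hS _).imp (hS _)))))

variable (O) in
/-- `c` is a code of the set `B`. -/
def Codes (c : List ℕ × Option ℕ → Prop) (B : Set X) : Prop :=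
  ∀ x, (x ∈ B → V O c x [] true) ∧ (x ∉ B → V O c x [] false)

/-- The code whose root is an inner node with the given subtrees. -/
def nor (c : ℕ → List ℕ × Option ℕ → Prop) : List ℕ × Option ℕ → Prop
  | ([], _) => False
  | (n :: u, o) => c n (u, o)

lemma V.nor {c : ℕ → List ℕ × Option ℕ → Prop} {x : X} {n : ℕ} {u : List ℕ} {b : Bool}
    (h : V O (c n) x u b) : V O (nor c) x (n :: u) b := by
  induction h with
  | leafT u i h1 h2 h3 => exact V.leafT _ i h1 h2 h3
  | leafF u h1 h2 => exact V.leafF _ h1 h2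
  | nodeT u h1 _ ih => exact V.nodeT _ h1 ih
  | nodeF u m h1 _ ih => exact V.nodeF _ m h1 ih

lemma Codes.nor {c : ℕ → List ℕ × Option ℕ → Prop} {B : ℕ → Set X} (h : ∀ n, Codes O (c n) (B n)) :
    Codes O (nor c) (⋃ n, B n)ᶜ := by
  intro x
  constructor
  · intro hx
    simp only [mem_compl_iff, mem_iUnion, not_exists] at hx
    exact V.nodeT _ not_false fun n => ((h n x).2 (hx n)).nor
  · intro hx
    simp only [mem_compl_iff, mem_iUnion, not_not] at hx
    obtain ⟨n, hn⟩ := hx
    exact V.nodeF _ n not_false ((h n x).1 hn).nor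

lemma exists_codes [TopologicalSpace X]
    (hO : ∀ U, IsOpen U → ∀ x ∈ U, ∃ i, x ∈ O i ∧ O i ⊆ U) {B : Set X}
    (hB : MeasurableSet[borel X] B) : ∃ c, Codes O c B := by
  have hopen : ∀ U, IsOpen U → ∃ c, Codes O c U := by
    intro U hU
    refine ⟨fun p => ∀ i ∈ p.2, O i ⊆ U, fun x => ⟨fun hx => ?_, fun hx => ?_⟩⟩
    · obtain ⟨i, h1, h2⟩ := hO U hU x hx
      exact V.leafT _ i (by simp) (by simpa using h2) h1
    · exact V.leafF _ (by simp) fun i hi h => hx (hi i rfl h)
  have hcompl : ∀ B : Set X, (∃ c, Codes O c B) → ∃ c, Codes O c Bᶜ := by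
    rintro B ⟨c, hc⟩
    have := Codes.nor (c := fun _ => c) (B := fun _ => B) fun _ => hc
    rw [iUnion_const] at this
    exact ⟨_, this⟩
  induction B, hB using MeasurableSpace.generateFrom_induction with
  | hC U hU _ => exact hopen U hU
  | empty => exact hopen _ isOpen_empty
  | compl B _ ih => exact hcompl B ih
  | iUnion B _ ih =>
    choose c hc using ih
    simpa using hcompl _ ⟨_, Codes.nor hc⟩

lemma exists_basis (X : Type*) [TopologicalSpace X] [SecondCountableTopology X] :
    ∃ O : ℕ → Set X, (∀ i, IsOpen (O i)) ∧ ∀ U, IsOpen U → ∀ x ∈ U, ∃ i, x ∈ O i ∧ O i ⊆ U := by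
  obtain ⟨b, hb, -, hB⟩ := TopologicalSpace.exists_countable_basis X
  obtain ⟨O, hO⟩ := (hb.insert ∅).exists_eq_range (insert_nonempty _ _)
  refine ⟨O, fun i => ?_, fun U hU x hx => ?_⟩
  · have : O i ∈ insert ∅ b := hO ▸ mem_range_self i
    rcases this with h | h
    · rw [h]; exact isOpen_empty
    · exact hB.isOpen h
  · obtain ⟨v, h1, h2, h3⟩ := hB.exists_subset_of_mem_open hx hU
    obtain ⟨i, rfl⟩ : v ∈ range O := hO ▸ mem_insert_of_mem _ h1
    exact ⟨i, h2, h3⟩

end Codes

end Pool.Agent.P.MP_ceb5ee_gt
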