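import Mathlib

namespace Pool.Agent.P.MP_ceb5ee_gt

/-- `A` is null-finite: for some sequence `s` converging to `0`, every set `{n | x + s n ∈ A}`
is finite. -/
def NullFinite {X : Type} [AddCommGroup X] [TopologicalSpace X] (A : Set X) : Prop :=
  ∃ s : ℕ → X, Filter.Tendsto s Filter.atTop (nhds 0) ∧ ∀ x : X, {n : ℕ | x + s n ∈ A}.Finite

end Pool.Agent.P.MP_ceb5ee_gt
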