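import Pool.Agent.P.MP_ceb5ee_gt.HForce
import Pool.Agent.P.MP_ceb5ee_gt.Codes

/-! Well-founded codes of Borel sets. -/

namespace Pool.Agent.P.MP_ceb5ee_gt.Haar

open Set MeasureTheory

variable {X : Type*} {O : ℕ → Set X}

variable (O) in
/-- The set `B` has a well-founded code. -/
def Coded (B : Set X) : Prop := ∃ c D, WellFounded (Child c) ∧ Val O c D ∧ D [] = B

lemma coded_nor {B : ℕ → Set X} (h : ∀ n, Coded O (B n)) : Coded O (⋃ n, B n)ᶜ := by
  choose c D h1 h2 h3 using h
  have hacc : ∀ n u, Acc (Child (nor c)) (n :: u) := by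
    intro n u
    induction u using (h1 n).induction with
    | _ u ih =>
      refine Acc.intro _ ?_
      rintro v ⟨k, m, rfl⟩
      exact ih (u ++ [m]) ⟨k, m, rfl⟩
  refine ⟨nor c, fun u => match u with
    | [] => (⋃ n, B n)ᶜ
    | n :: u => D n u, ⟨fun u => ?_⟩, fun u z => ?_, rfl⟩
  · cases u with
    | nil =>
      refine Acc.intro _ ?_
      rintro v ⟨-, m, rfl⟩
      exact hacc m []
    | cons n u => exact hacc n u
  · cases u with
    | nil =>
      refine ⟨fun k => k.elim, fun _ => ?_⟩
      simp [h3]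
    | cons n u => exact h2 n u z

lemma exists_coded [TopologicalSpace X]
    (hO : ∀ U, IsOpen U → ∀ x ∈ U, ∃ i, x ∈ O i ∧ O i ⊆ U) {B : Set X}
    (hB : MeasurableSet[borel X] B) : Coded O B := by
  have hopen : ∀ U, IsOpen U → Coded O U := by
    intro U hU
    refine ⟨fun p => ∀ i ∈ p.2, O i ⊆ U, fun _ => U, ⟨fun u => Acc.intro _ ?_⟩,
      fun u z => ⟨fun _ => ⟨fun hz => ?_, ?_⟩, fun k => absurd (by simp) k⟩, rfl⟩
    · rintro v ⟨k, -⟩
      exact absurd (by simp) k
    · obtain ⟨i, h1, h2⟩ := hO U hU z hz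
      exact ⟨i, by simpa using h2, h1⟩
    · rintro ⟨i, h1, h2⟩
      exact h1 i rfl h2
  have hcompl : ∀ B : Set X, Coded O B → Coded O Bᶜ := by
    intro B hc
    have := coded_nor (B := fun _ => B) fun _ => hc
    rwa [iUnion_const] at this
  induction B, hB using MeasurableSpace.generateFrom_induction with
  | hC U hU _ => exact hopen U hU
  | empty => exact hopen _ isOpen_empty
  | compl B _ ih => exact hcompl B ih
  | iUnion B _ ih => simpa using hcompl _ (coded_nor ih)

lemma coAn_wf {Ω : Type*} [MeasurableSpace Ω] {c : Ω → List ℕ × Option ℕ → Prop}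
    (hc : ∀ i, Measurable fun w => c w i) : CoAn fun w => WellFounded (Child (c w)) := by
  refine ⟨List ℕ → Prop, inferInstance, inferInstance, inferInstance,
    fun p => (∀ u, (∀ v, Child (c p.1) v u → p.2 v) → p.2 u) → ∀ u, p.2 u, ?_, fun w => ?_⟩
  · have hS : ∀ u, Measurable fun p : Ω × (List ℕ → Prop) => p.2 u :=
      fun u => (measurable_pi_apply u).comp measurable_snd
    exact (Measurable.forall fun u => (Measurable.forall fun v =>
      ((((hc _).comp measurable_fst).not).and measurable_const).imp (hS v)).imp (hS u)).imp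
      (Measurable.forall hS)
  · exact ⟨fun h S hS u => h.induction u hS, fun h => ⟨h _ fun u hu => Acc.intro u hu⟩⟩

end Pool.Agent.P.MP_ceb5ee_gt.Haar
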