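import Pool.Agent.P.MP_ceb5ee_gt.Scale

/-! The multi-scale encoding, robust under a thin family of translations. -/

namespace Pool.Agent.P.MP_ceb5ee_gt.Haar

open Set Filter Topology

variable {X : Type*} [NormedAddCommGroup X]

/-- The scale at which level `n` of a thin family is read. -/
def lev (n : ℕ) : ℕ := Nat.pair n (8 ^ n)

lemma le_lev (n : ℕ) : n ≤ lev n := Nat.left_le_pair _ _

lemma exists_encoding' [CompleteSpace X] {ε : ℕ → ℝ} {Z : ℕ → Set X}
    (h0 : ∀ j, 0 < ε j) (h1 : ∀ j, ε (j + 1) ≤ ε j / 8)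
    (hhit : ∀ j x, ∃ v, ‖v‖ ≤ ε j ∧ ∀ w, ‖w‖ ≤ 8 * ε (j + 1) → x + v + w ∈ Z j)
    (havoid : ∀ j (S : Finset X), S.card ≤ 8 ^ (j + 1) →
      ∃ v, ‖v‖ ≤ ε j ∧ ∀ σ ∈ S, ∀ w, ‖w‖ ≤ 8 * ε (j + 1) → σ + v + w ∉ Z j)
    {R : Type*} (P : R → X)
    (hP : ∀ n, ∃ S : Finset X, S.card ≤ 8 ^ n ∧ ∀ r, ∃ σ ∈ S, ‖P r - σ‖ ≤ 3 * ε (lev n))
    (bit : ℕ → X → Prop) :
    ∃ (x : X) (xs : ℕ → X), (∀ i, ‖x - xs i‖ ≤ 2 * ε i) ∧
      ∀ r i, (∃ j, j.unpair.1 = i ∧ x + P r ∈ Z j) ↔ bit i (xs i) := by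
  classical
  have hanti : Antitone ε := antitone_nat_of_succ_le fun j => by linarith [h1 j, h0 j]
  choose S hS1 hS2 using hP
  let H : ℕ → X := fun j => (S j.unpair.1).toList.getD j.unpair.2 0
  have hH : ∀ i r, ∃ j, j.unpair.1 = i ∧ ‖P r - H j‖ ≤ 3 * ε (j + 1) := by
    intro i r
    obtain ⟨σ, k1, k2⟩ := hS2 i r
    obtain ⟨m, hm, k3⟩ := List.getElem_of_mem (Finset.mem_toList.2 k1)
    refine ⟨Nat.pair i m, by simp, ?_⟩
    have k4 : H (Nat.pair i m) = σ := by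
      simp only [H, Nat.unpair_pair]
      rw [List.getD_eq_getElem _ _ hm, k3]
    have k5 : m < 8 ^ i := by
      rw [Finset.length_toList] at hm
      exact hm.trans_le (hS1 i)
    have k6 : Nat.pair i m + 1 ≤ lev i := Nat.pair_lt_pair_right i k5
    rw [k4]
    linarith [hanti k6]
  have hstep : ∀ (j : ℕ) (a b : X), ∃ v, ‖v‖ ≤ ε j ∧
      (bit j.unpair.1 b → ∀ w, ‖w‖ ≤ 5 * ε (j + 1) → a + H j + v + w ∈ Z j) ∧
      (¬ bit j.unpair.1 b → ∀ r w, ‖w‖ ≤ 2 * ε (j + 1) → a + v + w + P r ∉ Z j) := by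
    intro j a b
    by_cases hb : bit j.unpair.1 b
    · obtain ⟨v, k1, k2⟩ := hhit j (a + H j)
      exact ⟨v, k1, fun _ w hw => k2 w (by linarith [h0 (j + 1)]), fun h => absurd hb h⟩
    · obtain ⟨v, k1, k2⟩ := havoid j ((S (j + 1)).image (a + ·))
        (Finset.card_image_le.trans (hS1 _))
      refine ⟨v, k1, fun h => absurd h hb, fun _ r w hw => ?_⟩
      obtain ⟨σ, k4, k5⟩ := hS2 (j + 1) r
      have := k2 (a + σ) (Finset.mem_image.2 ⟨σ, k4, rfl⟩) (w + (P r - σ))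
        ((norm_add_le _ _).trans (by linarith [h0 (j + 1), hanti (le_lev (j + 1))]))
      convert this using 2; abel
  choose step s1 s2 s3 using hstep
  set xs := approx step with hxs
  have hsucc : ∀ j, xs (j + 1) = xs j + step j (xs j) (xs j.unpair.1) := by
    intro j
    rw [hxs, approx, min_eq_left (Nat.unpair_left_le j)]
  have hdist : ∀ i k, ‖xs (i + k) - xs i‖ ≤ 2 * ε i - 2 * ε (i + k) := by
    intro i k
    induction k with
    | zero => simp
    | succ k ih =>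
      rw [← add_assoc, hsucc]
      have e : xs (i + k) + step (i + k) (xs (i + k)) (xs (i + k).unpair.1) - xs i =
        (xs (i + k) - xs i) + step (i + k) (xs (i + k)) (xs (i + k).unpair.1) := by abel
      rw [e]
      refine (norm_add_le _ _).trans ?_
      have := s1 (i + k) (xs (i + k)) (xs (i + k).unpair.1)
      have := h1 (i + k)
      have := h0 (i + k)
      linarith
  have hgeo : ∀ j, ε j ≤ ε 0 * (1 / 8) ^ j := by
    intro j
    induction j with
    | zero => simp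
    | succ j ih => rw [pow_succ]; linarith [h1 j]
  have hcauchy : CauchySeq xs := by
    refine cauchySeq_of_le_geometric (1 / 8) (ε 0) (by norm_num) fun j => ?_
    rw [dist_comm, dist_eq_norm, hsucc, add_sub_cancel_left]
    exact (s1 _ _ _).trans (hgeo j)
  obtain ⟨x, hx⟩ := cauchySeq_tendsto_of_complete hcauchy
  have hlim : ∀ i, ‖x - xs i‖ ≤ 2 * ε i := by
    intro i
    have t1 : Tendsto (fun k => ‖xs (k + i) - xs i‖) atTop (𝓝 ‖x - xs i‖) :=
      (((tendsto_add_atTop_iff_nat i).2 hx).sub_const _).norm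
    refine le_of_tendsto' t1 fun k => ?_
    rw [add_comm]
    linarith [hdist i k, h0 (i + k)]
  have hx' : ∀ j, x = xs j + step j (xs j) (xs j.unpair.1) + (x - xs (j + 1)) := by
    intro j; rw [← hsucc]; abel
  refine ⟨x, xs, hlim, fun r i => ⟨?_, fun hb => ?_⟩⟩
  · rintro ⟨j, rfl, hj⟩
    by_contra hb
    rw [hx' j] at hj
    exact s3 j _ _ hb r _ (hlim (j + 1)) hj
  · obtain ⟨j, rfl, hj⟩ := hH i r
    refine ⟨j, rfl, ?_⟩
    have := s2 j (xs j) (xs j.unpair.1) hb ((x - xs (j + 1)) + (P r - H j))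
      ((norm_add_le _ _).trans (by linarith [hlim (j + 1)]))
    convert this using 1
    rw [hsucc]
    abel

end Pool.Agent.P.MP_ceb5ee_gt.Haar
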