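import Mathlib

/-! Cohen forcing along a well-founded code, and the canonical generic chain. -/

namespace Pool.Agent.P.MP_ceb5ee_gt.Haar

open Set Encodable

/-- The child relation below the inner nodes of a code. -/
def Child (c : List ℕ × Option ℕ → Prop) (v u : List ℕ) : Prop :=
  ¬ c (u, none) ∧ ∃ n, v = u ++ [n]

/-- `t` is the first string with property `Q`. -/
def First (Q : List Bool → Prop) (t : List Bool) : Prop :=
  Q t ∧ ∀ t', encode t' < encode t → ¬ Q t'

lemma exists_first {Q : List Bool → Prop} (h : ∃ t, Q t) : ∃ t, First Q t := by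
  obtain ⟨t, h1, h2⟩ := (measure (encode : List Bool → ℕ)).wf.has_min {t | Q t} h
  exact ⟨t, h1, fun t' k hq => h2 t' hq k⟩

lemma First.unique {Q : List Bool → Prop} {t t' : List Bool} (h : First Q t) (h' : First Q t') :
    t = t' := by
  rcases lt_trichotomy (encode t) (encode t') with k | k | k
  · exact absurd h.1 (h'.2 t k)
  · exact encode_injective k
  · exact absurd h'.1 (h.2 t' k)

section Rules

variable (c : List ℕ × Option ℕ → Prop) (G : List Bool × ℕ → Prop)
  (L : List ℕ × List Bool → Prop)

/-- The string `s` already lies in a basic set of the leaf `u`. -/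
def Lf (u : List ℕ) (s : List Bool) : Prop := ∃ i s', c (u, some i) ∧ s' <+: s ∧ G (s', i)

/-- The recursion for the forcing relation. -/
def Fix : Prop := ∀ u s, L (u, s) ↔
  (c (u, none) → ∀ t, s <+: t → ∃ t', t <+: t' ∧ Lf c G u t') ∧
  (¬ c (u, none) → ∀ t, s <+: t → ∀ n, ¬ L (u ++ [n], t))

/-- The string `s` decides the node `u`. -/
def Dec (u : List ℕ) (s : List Bool) : Prop :=
  (c (u, none) → Lf c G u s ∨ ∀ t, s <+: t → ¬ Lf c G u t) ∧
  (¬ c (u, none) → (∃ n, L (u ++ [n], s)) ∨ ∀ t, s <+: t → ∀ n, ¬ L (u ++ [n], t))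

/-- The starting condition: force the negation of the root if that is possible. -/
def Start (s : List Bool) : Prop :=
  (∀ t, s <+: t → ¬ L ([], t)) ∨ ∀ s', ∃ t, s' <+: t ∧ L ([], t)

/-- One step of a generic chain. -/
def Step (n : ℕ) (s t : List Bool) : Prop :=
  s <+: t ∧ n < t.length ∧ Dec c G L (Denumerable.ofNat (List ℕ) n) t

/-- The canonical generic chain. -/
def Ch : ℕ → List Bool → Prop
  | 0, s => First (Start L) s
  | n + 1, t => ∃ s, Ch n s ∧ First (Step c G L n s) t

variable {c G L}

lemma exists_fix (hc : WellFounded (Child c)) : ∃ L, Fix c G L := by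
  let F : ∀ u : List ℕ, (∀ v, Child c v u → List Bool → Prop) → List Bool → Prop :=
    fun u ih s => (c (u, none) → ∀ t, s <+: t → ∃ t', t <+: t' ∧ Lf c G u t') ∧
      (∀ h : ¬ c (u, none), ∀ t, s <+: t → ∀ n, ¬ ih (u ++ [n]) ⟨h, n, rfl⟩ t)
  refine ⟨fun p => hc.fix F p.1 p.2, fun u s => ?_⟩
  change hc.fix F u s ↔ _
  rw [hc.fix_eq]

lemma Fix.unique (hc : WellFounded (Child c)) {L' : List ℕ × List Bool → Prop} (h : Fix c G L)
    (h' : Fix c G L') : L = L' := by
  have : ∀ u s, L (u, s) ↔ L' (u, s) := by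
    intro u
    induction u using hc.induction with
    | _ u ih =>
      intro s
      rw [h u s, h' u s]
      refine and_congr Iff.rfl (forall_congr' fun k => forall_congr' fun t =>
        forall_congr' fun _ => forall_congr' fun n => not_congr (ih _ ⟨k, n, rfl⟩ t))
  funext p
  exact propext (this p.1 p.2)

lemma Fix.mono (h : Fix c G L) {u : List ℕ} {s t : List Bool} (hs : L (u, s)) (hst : s <+: t) :
    L (u, t) := by
  rw [h] at hs ⊢
  exact ⟨fun k t' ht => hs.1 k t' (hst.trans ht), fun k t' ht => hs.2 k t' (hst.trans ht)⟩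

lemma exists_start : ∃ s, Start L s := by
  by_cases h : ∀ s', ∃ t, s' <+: t ∧ L ([], t)
  · exact ⟨[], Or.inr h⟩
  · push Not at h
    obtain ⟨s, hs⟩ := h
    exact ⟨s, Or.inl hs⟩

lemma exists_step (n : ℕ) (s : List Bool) : ∃ t, Step c G L n s t := by
  set u := Denumerable.ofNat (List ℕ) n with hu
  have h0 : s <+: s ++ List.replicate (n + 1) false := List.prefix_append _ _
  have h1 : n < (s ++ List.replicate (n + 1) false).length := by simp; omega
  generalize s ++ List.replicate (n + 1) false = s1 at h0 h1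
  have key : ∃ t, s1 <+: t ∧ Dec c G L u t := by
    by_cases k : c (u, none)
    · by_cases h : ∀ t, s1 <+: t → ¬ Lf c G u t
      · exact ⟨s1, List.prefix_rfl, fun _ => Or.inr h, fun k' => absurd k k'⟩
      · push Not at h
        obtain ⟨t, h2, h3⟩ := h
        exact ⟨t, h2, fun _ => Or.inl h3, fun k' => absurd k k'⟩
    · by_cases h : ∀ t, s1 <+: t → ∀ n, ¬ L (u ++ [n], t)
      · exact ⟨s1, List.prefix_rfl, fun k' => absurd k' k, fun _ => Or.inr h⟩
      · push Not at h
        obtain ⟨t, h2, h3⟩ := h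
        exact ⟨t, h2, fun k' => absurd k' k, fun _ => Or.inl h3⟩
  obtain ⟨t, h2, h3⟩ := key
  exact ⟨t, h0.trans h2, h1.trans_le h2.length_le, h3⟩

lemma exists_chain : ∃ p : ℕ → List Bool, Start L (p 0) ∧ (∀ n, Step c G L n (p n) (p (n + 1))) ∧
    ∀ n s, Ch c G L n s ↔ s = p n := by
  obtain ⟨s0, hs0⟩ := exists_first (exists_start (L := L))
  choose nx hnx using fun n s => exists_first (exists_step (c := c) (G := G) (L := L) n s)
  refine ⟨fun n => Nat.rec s0 nx n, hs0.1, fun n => (hnx n _).1, fun n => ?_⟩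
  induction n with
  | zero => exact fun s => ⟨fun h => First.unique h hs0, fun h => h ▸ hs0⟩
  | succ n ih =>
    intro t
    constructor
    · rintro ⟨s, h1, h2⟩
      rw [(ih s).1 h1] at h2
      exact h2.unique (hnx n _)
    · rintro rfl
      exact ⟨_, (ih _).2 rfl, hnx n _⟩

end Rules

/-- The sequence `σ` extends the string `s`. -/
def In (σ : ℕ → Bool) (s : List Bool) : Prop := ∀ i < s.length, s.getD i false = σ i

lemma In.mono {σ : ℕ → Bool} {s t : List Bool} (h : In σ t) (hst : s <+: t) : In σ s := by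
  intro i hi
  obtain ⟨w, rfl⟩ := hst
  rw [← h i (by simp; omega), List.getD_append _ _ _ _ hi]

lemma chain_mono {p : ℕ → List Bool} (hp : ∀ n, p n <+: p (n + 1)) {m n : ℕ} (h : m ≤ n) :
    p m <+: p n := by
  induction h with
  | refl => exact List.prefix_rfl
  | step _ ih => exact ih.trans (hp _)

lemma exists_limit {p : ℕ → List Bool} (hp : ∀ n, p n <+: p (n + 1))
    (hl : ∀ n, n < (p (n + 1)).length) : ∃ σ, ∀ n, In σ (p n) := by
  refine ⟨fun i => (p (i + 1)).getD i false, fun n i hi => ?_⟩
  have key : ∀ a b, p a <+: p b → i < (p a).length → (p a).getD i false = (p b).getD i false := by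
    rintro a b ⟨w, hw⟩ h
    rw [← hw, List.getD_append _ _ _ _ h]
  rcases le_total n (i + 1) with k | k
  · exact key _ _ (chain_mono hp k) hi
  · exact (key _ _ (chain_mono hp k) (hl i)).symm

/-- `D` assigns to every node of the code `c` the set coded there. -/
def Val {X : Type*} (O : ℕ → Set X) (c : List ℕ × Option ℕ → Prop) (D : List ℕ → Set X) : Prop :=
  ∀ u z, (c (u, none) → (z ∈ D u ↔ ∃ i, c (u, some i) ∧ z ∈ O i)) ∧
    (¬ c (u, none) → (z ∈ D u ↔ ∀ n, z ∉ D (u ++ [n])))

/-- Truth equals forcing along a generic chain. -/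
lemma truth {X : Type*} {O : ℕ → Set X} {c : List ℕ × Option ℕ → Prop} {G : List Bool × ℕ → Prop}
    {L : List ℕ × List Bool → Prop} {D : List ℕ → Set X} (hc : WellFounded (Child c))
    (hD : Val O c D) (hL : Fix c G L) {p : ℕ → List Bool}
    (hp : ∀ n, Step c G L n (p n) (p (n + 1))) {z : X}
    (hz : ∀ i, z ∈ O i ↔ ∃ n s, s <+: p n ∧ G (s, i)) (u : List ℕ) :
    z ∈ D u ↔ ∃ n, L (u, p n) := by
  have hm : ∀ {m n}, m ≤ n → p m <+: p n := chain_mono fun n => (hp n).1
  induction u using hc.induction with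
  | _ u ih =>
    have hd : Dec c G L u (p (encode u + 1)) := by simpa using (hp (encode u)).2.2
    by_cases k : c (u, none)
    · rw [(hD u z).1 k]
      constructor
      · rintro ⟨i, h1, h2⟩
        obtain ⟨n, s, h3, h4⟩ := (hz i).1 h2
        refine ⟨n, (hL _ _).2 ⟨fun _ t ht => ⟨t, List.prefix_rfl, i, s, h1, h3.trans ht, h4⟩,
          fun k' => absurd k k'⟩⟩
      · rintro ⟨n, hn⟩
        rcases hd.1 k with ⟨i, s, h1, h2, h3⟩ | h
        · exact ⟨i, h1, (hz i).2 ⟨_, s, h2, h3⟩⟩
        · obtain ⟨t, h1, h2⟩ := ((hL _ _).1 hn).1 k _ (hm (le_max_left n (encode u + 1)))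
          exact absurd h2 (h t ((hm (le_max_right _ _)).trans h1))
    · rw [(hD u z).2 k]
      constructor
      · intro h
        rcases hd.2 k with ⟨n, h1⟩ | h1
        · exact absurd ((ih _ ⟨k, n, rfl⟩).2 ⟨_, h1⟩) (h n)
        · exact ⟨_, (hL _ _).2 ⟨fun k' => absurd k' k, fun _ => h1⟩⟩
      · rintro ⟨m, hm'⟩ n hn
        obtain ⟨m', h1⟩ := (ih _ ⟨k, n, rfl⟩).1 hn
        exact ((hL _ _).1 hm').2 k _ (hm (le_max_left m m')) n
          (hL.mono h1 (hm (le_max_right m m')))

/-- A generic chain below a given string whose limit avoids countably many sequences. -/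
lemma exists_avoid (c : List ℕ × Option ℕ → Prop) (G : List Bool × ℕ → Prop)
    (L : List ℕ × List Bool → Prop) (s : List Bool) (T : ℕ → ℕ → Bool) :
    ∃ p : ℕ → List Bool, p 0 = s ∧ (∀ n, Step c G L n (p n) (p (n + 1))) ∧
      ∀ n, ¬ In (T n) (p (n + 1)) := by
  have : ∀ n s, ∃ t, Step c G L n s t ∧ ¬ In (T n) t := by
    intro n s
    obtain ⟨t, h1, h2⟩ := exists_step (c := c) (G := G) (L := L) n (s ++ [!T n s.length])
    refine ⟨t, ⟨(List.prefix_append _ _).trans h1, h2⟩, fun h => ?_⟩
    have := h.mono h1 s.length (by simp)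
    simp at this
  choose nx h1 h2 using this
  exact ⟨fun n => Nat.rec s nx n, rfl, fun n => h1 n _, fun n => h2 n _⟩

section Meas

variable {Ω : Type*} [MeasurableSpace Ω] {c : Ω → List ℕ × Option ℕ → Prop}
  {G : Ω → List Bool × ℕ → Prop} {L : Ω → List ℕ × List Bool → Prop}

lemma meas_first {Q : Ω → List Bool → Prop} (hQ : ∀ t, Measurable fun w => Q w t)
    (t : List Bool) : Measurable fun w => First (Q w) t :=
  (hQ t).and (Measurable.forall fun t' => measurable_const.imp (hQ t').not)

lemma meas_lf (hc : ∀ i, Measurable fun w => c w i) (hG : ∀ i, Measurable fun w => G w i)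
    (u : List ℕ) (s : List Bool) : Measurable fun w => Lf (c w) (G w) u s :=
  Measurable.exists fun _ => Measurable.exists fun _ => (hc _).and (measurable_const.and (hG _))

lemma meas_fix (hc : ∀ i, Measurable fun w => c w i) (hG : ∀ i, Measurable fun w => G w i)
    (hL : ∀ i, Measurable fun w => L w i) : Measurable fun w => Fix (c w) (G w) (L w) :=
  Measurable.forall fun u => Measurable.forall fun _ => (hL _).iff
    (((hc _).imp (Measurable.forall fun _ => measurable_const.imp (Measurable.exists fun t' =>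
      measurable_const.and (meas_lf hc hG u t')))).and
    ((hc _).not.imp (Measurable.forall fun _ => measurable_const.imp
      (Measurable.forall fun _ => (hL _).not))))

lemma meas_ch (hc : ∀ i, Measurable fun w => c w i) (hG : ∀ i, Measurable fun w => G w i)
    (hL : ∀ i, Measurable fun w => L w i) (n : ℕ) :
    ∀ s, Measurable fun w => Ch (c w) (G w) (L w) n s := by
  induction n with
  | zero =>
    exact meas_first fun t => (Measurable.forall fun _ => measurable_const.imp (hL _).not).or
      (Measurable.forall fun _ => Measurable.exists fun _ => measurable_const.and (hL _))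
  | succ n ih =>
    intro t
    refine Measurable.exists fun s => (ih s).and (meas_first (fun t => ?_) t)
    exact measurable_const.and (measurable_const.and
      (((hc _).imp ((meas_lf hc hG _ _).or (Measurable.forall fun _ =>
        measurable_const.imp (meas_lf hc hG _ _).not))).and
      ((hc _).not.imp ((Measurable.exists fun _ => hL _).or (Measurable.forall fun _ =>
        measurable_const.imp (Measurable.forall fun _ => (hL _).not))))))

end Meas

end Pool.Agent.P.MP_ceb5ee_gt.Haar
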