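import Pool.Agent.P.MP_ceb5ee_gt.HForce

/-! Thin maps from the Cantor space. -/

namespace Pool.Agent.P.MP_ceb5ee_gt.Haar

open Set Filter Topology Function

variable {X : Type*} [NormedAddCommGroup X]

/-- Sequences that agree below `n` have images within `δ n`. -/
def Thin (δ : ℕ → ℝ) (f : (ℕ → Bool) → X) : Prop :=
  ∀ n σ τ, (∀ i < n, σ i = τ i) → ‖f σ - f τ‖ ≤ δ n

lemma exists_modulus {g : (ℕ → Bool) → X} (hg : Continuous g) {δ : ℝ} (hδ : 0 < δ) :
    ∃ N, ∀ σ τ, (∀ i < N, σ i = τ i) → ‖g σ - g τ‖ ≤ δ := by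
  by_contra h
  push Not at h
  let E : ℕ → Set ((ℕ → Bool) × (ℕ → Bool)) :=
    fun N => {p | (∀ i < N, p.1 i = p.2 i) ∧ δ ≤ ‖g p.1 - g p.2‖}
  have hcl : ∀ N, IsClosed (E N) := by
    intro N
    have a2 : IsClosed {p : (ℕ → Bool) × (ℕ → Bool) | δ ≤ ‖g p.1 - g p.2‖} :=
      isClosed_le continuous_const (by fun_prop)
    refine IsClosed.inter (s₁ := {p : (ℕ → Bool) × (ℕ → Bool) | ∀ i < N, p.1 i = p.2 i}) ?_ a2
    simp only [ofPred_forall]
    exact isClosed_iInter fun i => isClosed_iInter fun _ => isClosed_eq (by fun_prop) (by fun_prop)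
  obtain ⟨p, hp⟩ := IsCompact.nonempty_iInter_of_sequence_nonempty_isCompact_isClosed E
    (fun N p hp => ⟨fun i hi => hp.1 i (by omega), hp.2⟩)
    (fun N => by
      obtain ⟨σ, τ, h1, h2⟩ := h N
      exact ⟨(σ, τ), h1, h2.le⟩) (hcl 0).isCompact hcl
  rw [mem_iInter] at hp
  have e : p.1 = p.2 := funext fun i => (hp (i + 1)).1 i (by omega)
  have := (hp 0).2
  rw [e, sub_self, norm_zero] at this
  linarith

lemma exists_thin {g : (ℕ → Bool) → X} (hg : Continuous g) {δ : ℕ → ℝ} (hδ : ∀ n, 0 < δ n) :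
    ∃ e : (ℕ → Bool) → ℕ → Bool, Continuous e ∧ Injective e ∧ Thin δ (g ∘ e) := by
  classical
  choose N hN using fun n => exists_modulus hg (hδ n)
  obtain ⟨M, hM1, hM2⟩ : ∃ M : ℕ → ℕ, StrictMono M ∧ ∀ n, N n ≤ M n := by
    refine ⟨fun n => Nat.rec (N 0) (fun n m => m + N (n + 1) + 1) n,
      strictMono_nat_of_lt_succ fun n => by simp only; omega, fun n => ?_⟩
    cases n with
    | zero => exact le_rfl
    | succ n => simp only; omega
  refine ⟨fun σ => extend M σ fun _ => false, continuous_pi fun m => ?_, fun σ τ h => ?_,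
    fun n σ τ h => hN n _ _ fun m hm => ?_⟩
  · by_cases k : ∃ a, M a = m
    · obtain ⟨a, rfl⟩ := k
      simp only [hM1.injective.extend_apply]
      exact continuous_apply a
    · simp only [extend_apply' _ _ _ k]
      exact continuous_const
  · funext a
    simpa only [hM1.injective.extend_apply] using congrFun h (M a)
  · by_cases k : ∃ a, M a = m
    · obtain ⟨a, rfl⟩ := k
      simp only [hM1.injective.extend_apply]
      exact h a (hM1.lt_iff_lt.1 (hm.trans_le (hM2 n)))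
    · simp only [extend_apply' _ _ _ k]

lemma Thin.net {δ : ℕ → ℝ} {f : (ℕ → Bool) → X} (hf : Thin δ f) (n : ℕ) :
    ∃ S : Finset X, S.card ≤ 2 ^ n ∧ ∀ σ, ∃ s ∈ S, ‖f σ - s‖ ≤ δ n := by
  classical
  refine ⟨Finset.univ.image fun v : Fin n → Bool => f fun i => if h : i < n then v ⟨i, h⟩ else false,
    Finset.card_image_le.trans (by simp), fun σ => ⟨_, Finset.mem_image.2
      ⟨fun i => σ i, Finset.mem_univ _, rfl⟩, hf n _ _ fun i hi => by simp [hi]⟩⟩

lemma net_three {δ : ℕ → ℝ} {f g : (ℕ → Bool) → X} (hf : Thin δ f) (hg : Thin δ g) (n : ℕ) :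
    ∃ S : Finset X, S.card ≤ 8 ^ n ∧ ∀ r : (ℕ → Bool) × (ℕ → Bool) × (ℕ → Bool),
      ∃ s ∈ S, ‖f r.1 + (g r.2.1 - g r.2.2) - s‖ ≤ 3 * δ n := by
  classical
  obtain ⟨S1, a1, a2⟩ := hf.net n
  obtain ⟨S2, b1, b2⟩ := hg.net n
  refine ⟨(S1 ×ˢ S2 ×ˢ S2).image fun z => z.1 + (z.2.1 - z.2.2),
    Finset.card_image_le.trans ?_, fun r => ?_⟩
  · rw [Finset.card_product, Finset.card_product]
    calc _ ≤ 2 ^ n * (2 ^ n * 2 ^ n) := by gcongr
      _ = _ := by rw [← mul_pow, ← mul_pow]; norm_num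
  · obtain ⟨σ1, c1, d1⟩ := a2 r.1
    obtain ⟨σ2, c2, d2⟩ := b2 r.2.1
    obtain ⟨σ3, c3, d3⟩ := b2 r.2.2
    refine ⟨_, Finset.mem_image.2 ⟨(σ1, σ2, σ3), by simp [c1, c2, c3], rfl⟩, ?_⟩
    have e : f r.1 + (g r.2.1 - g r.2.2) - (σ1 + (σ2 - σ3)) =
        (f r.1 - σ1) + ((g r.2.1 - σ2) - (g r.2.2 - σ3)) := by abel
    rw [e]
    refine (norm_add_le _ _).trans ?_
    linarith [norm_sub_le (g r.2.1 - σ2) (g r.2.2 - σ3)]

/-- On every translate, the image of some cylinder leaves `B` up to countably many points. -/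
def Esc (f : (ℕ → Bool) → X) (B : Set X) : Prop :=
  ∀ x, ∃ (s : List Bool) (T : ℕ → ℕ → Bool), ∀ σ, In σ s → (∀ n, σ ≠ T n) → x + f σ ∉ B

lemma esc_of_countable {g : (ℕ → Bool) → X} (hg : Continuous g) {B : Set X}
    (hB : ∀ x, {σ | x + g σ ∈ B}.Countable) {δ : ℕ → ℝ} (hδ : ∀ n, 0 < δ n) :
    ∃ f, Thin δ f ∧ Esc f B := by
  obtain ⟨e, -, h2, h3⟩ := exists_thin hg hδ
  refine ⟨g ∘ e, h3, fun x => ?_⟩
  obtain ⟨T, hT⟩ := countable_iff_exists_subset_range.1 ((hB x).preimage_of_injOn h2.injOn)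
  refine ⟨[], T, fun σ _ h k => ?_⟩
  obtain ⟨n, hn⟩ := hT (a := σ) k
  exact h n hn.symm

lemma esc_of_null {s : ℕ → X} (hs : Tendsto s atTop (𝓝 0)) {B : Set X}
    (hB : ∀ x, {n | x + s n ∈ B}.Finite) {δ : ℕ → ℝ} (hδ : ∀ n, 0 < δ n) :
    ∃ f, Thin δ f ∧ Esc f B := by
  classical
  obtain ⟨φ, hφ, hφs⟩ := extraction_forall_of_eventually
    (P := fun k n => ∀ m ∈ Finset.range (k + 1), ‖s n‖ ≤ δ m / 2) fun k =>
      (Finset.eventually_all _).2 fun m _ =>
        (tendsto_zero_iff_norm_tendsto_zero.1 hs).eventually (ge_mem_nhds (half_pos (hδ m)))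
  let f : (ℕ → Bool) → X := fun σ => if h : ∃ k, σ k = true then s (φ (Nat.find h)) else 0
  have hf1 : ∀ σ k, σ k = true → (∀ i < k, σ i = false) → f σ = s (φ k) := by
    intro σ k h1 h2
    have h : ∃ k, σ k = true := ⟨k, h1⟩
    have : Nat.find h = k := (Nat.find_eq_iff h).2 ⟨h1, fun i hi => by simp [h2 i hi]⟩
    simp only [f, dif_pos h, this]
  have hf2 : ∀ σ n, (∀ i < n, σ i = false) → ‖f σ‖ ≤ δ n / 2 := by
    intro σ n h1
    by_cases h : ∃ k, σ k = true
    · simp only [f, dif_pos h]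
      refine hφs _ n (Finset.mem_range.2 (Nat.lt_succ_of_le (not_lt.1 fun k => ?_)))
      have := Nat.find_spec h
      rw [h1 _ k] at this
      exact absurd this (by simp)
    · simp only [f, dif_neg h, norm_zero]
      exact (half_pos (hδ n)).le
  refine ⟨f, fun n σ τ h => ?_, fun x => ?_⟩
  · by_cases k : ∃ i, i < n ∧ σ i = true
    · have a1 := Nat.find_spec k
      have a2 : ∀ i < Nat.find k, σ i = false := fun i hi => by
        have := Nat.find_min k hi
        simpa [hi.trans a1.1] using this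
      rw [hf1 σ _ a1.2 a2, hf1 τ _ (h _ a1.1 ▸ a1.2) fun i hi => h i (hi.trans a1.1) ▸ a2 i hi,
        sub_self, norm_zero]
      exact (hδ n).le
    · push Not at k
      have a1 : ∀ i < n, σ i = false := fun i hi => by simpa using k i hi
      linarith [norm_sub_le (f σ) (f τ), hf2 σ n a1, hf2 τ n fun i hi => h i hi ▸ a1 i hi]
  · obtain ⟨k, hk⟩ : ∃ k, x + s (φ k) ∉ B := by
      by_contra h
      push Not at h
      exact infinite_of_injective_forall_mem hφ.injective h (hB x)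
    refine ⟨List.replicate k false ++ [true], fun _ _ => false, fun σ h _ => ?_⟩
    rw [hf1 σ k]
    · exact hk
    · rw [← h k (by simp)]
      simp
    · intro i hi
      rw [← h i (by simp; omega), List.getD_append _ _ _ _ (by simpa using hi)]
      simp [hi]

end Pool.Agent.P.MP_ceb5ee_gt.Haar
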