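import Mathlib

/-! An Abelian Polish group carries a complete compatible group norm. -/

namespace Pool.Agent.P.MP_ceb5ee_gt

open Set Filter Topology

lemma exists_groupNorm (X : Type*) [AddCommGroup X] [TopologicalSpace X] [IsTopologicalAddGroup X]
    [FirstCountableTopology X] [T0Space X] :
    ∃ N : AddGroupNorm X, (𝓝 (0 : X)).HasBasis (fun ε : ℝ => 0 < ε) fun ε => {x | N x < ε} := by
  let _ : UniformSpace X := IsTopologicalAddGroup.rightUniformSpace X
  have : IsUniformAddGroup X := isUniformAddGroup_of_addCommGroup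
  have : (uniformity X).IsCountablyGenerated := IsUniformAddGroup.uniformity_countably_generated
  let _ : MetricSpace X := UniformSpace.metricSpace X
  have hb : ∀ x : X, BddAbove (range fun z : X => min 1 (dist z (z + x))) :=
    fun x => ⟨1, by rintro _ ⟨z, rfl⟩; exact min_le_left _ _⟩
  have hle : ∀ x z : X, min 1 (dist z (z + x)) ≤ ⨆ z : X, min 1 (dist z (z + x)) :=
    fun x z => le_ciSup (hb x) z
  have hneg : ∀ x : X, ⨆ z : X, min 1 (dist z (z + -x)) ≤ ⨆ z : X, min 1 (dist z (z + x)) := by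
    intro x
    refine ciSup_le fun z => ?_
    have := hle x (z + -x)
    rwa [neg_add_cancel_right, dist_comm] at this
  refine ⟨{ toFun := fun x => ⨆ z : X, min 1 (dist z (z + x))
            map_zero' := by simp
            add_le' := fun x y => ?_
            neg' := fun x => le_antisymm (hneg x) (by simpa using hneg (-x))
            eq_zero_of_map_eq_zero' := fun x hx => ?_ }, ?_⟩
  · refine ciSup_le fun z => ?_
    have h1 := hle x z
    have h2 := hle y (z + x)
    have h3 := dist_triangle z (z + x) (z + x + y)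
    rw [← add_assoc]
    have h4 : min 1 (dist z (z + x + y)) ≤
        min 1 (dist z (z + x)) + min 1 (dist (z + x) (z + x + y)) := by
      have := dist_nonneg (x := z) (y := z + x)
      have := dist_nonneg (x := z + x) (y := z + x + y)
      simp only [min_def]
      split_ifs <;> linarith
    linarith
  · have h1 := hle x 0
    rw [hx, zero_add, min_le_iff] at h1
    rcases h1 with h | h
    · linarith
    · exact (dist_le_zero.1 h).symm
  · refine ⟨fun U => ⟨fun hU => ?_, ?_⟩⟩
    · obtain ⟨ε, h0, h1⟩ := Metric.mem_nhds_iff.1 hU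
      refine ⟨min 1 ε, by positivity, fun x hx => h1 ?_⟩
      have h2 : min 1 (dist 0 (0 + x)) < min 1 ε := (hle x 0).trans_lt hx
      rw [Metric.mem_ball, dist_comm]
      rw [zero_add] at h2
      by_contra h3
      exact absurd (min_le_min_left 1 (not_lt.1 h3)) (not_le.2 h2)
    · rintro ⟨ε, h0, h1⟩
      have h2 := Metric.dist_mem_uniformity (α := X) (half_pos h0)
      rw [uniformity_eq_comap_nhds_zero, mem_comap] at h2
      obtain ⟨U', h3, h4⟩ := h2
      refine mem_of_superset h3 fun x hx => h1 ?_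
      refine lt_of_le_of_lt (ciSup_le fun z => ?_) (half_lt_self h0)
      have : dist z (z + x) < ε / 2 := h4 (a := (z, z + x)) (by simpa using hx)
      exact (min_le_right _ _).trans this.le

lemma exists_subseq_tendsto {X : Type*} [AddCommGroup X] [TopologicalSpace X]
    [IsTopologicalAddGroup X] [TopologicalSpace.IsCompletelyMetrizableSpace X] (x : ℕ → X)
    (hx : ∀ U ∈ 𝓝 (0 : X), ∃ n₀, ∀ m ≥ n₀, ∀ n ≥ n₀, x m - x n ∈ U) :
    ∃ (φ : ℕ → ℕ) (a : X), Tendsto φ atTop atTop ∧ Tendsto (x ∘ φ) atTop (𝓝 a) := by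
  let _ := TopologicalSpace.upgradeIsCompletelyMetrizable X
  have key : ∀ (a : X) (k N : ℕ), ∃ n ≥ max N k, ∀ m ≥ n,
      dist a (a + (x m - x n)) < (1 / 2) ^ k ∧ dist a (a - (x m - x n)) < (1 / 2) ^ k := by
    intro a k N
    have h1 : {u : X | dist a (a + u) < (1 / 2) ^ k} ∈ 𝓝 (0 : X) :=
      (isOpen_lt (by fun_prop) continuous_const).mem_nhds (by simp)
    have h2 : {u : X | dist a (a - u) < (1 / 2) ^ k} ∈ 𝓝 (0 : X) :=
      (isOpen_lt (by fun_prop) continuous_const).mem_nhds (by simp)
    obtain ⟨n₀, h⟩ := hx _ (inter_mem h1 h2)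
    refine ⟨max n₀ (max N k), le_max_right _ _, fun m hm => ?_⟩
    exact h m ((le_max_left _ _).trans hm) _ (le_max_left _ _)
  choose f hf1 hf2 using key
  -- state: the point `b` and the index `n`; the other point is `b + x n`
  let st : ℕ → X × ℕ := fun k => Nat.rec (0, f 0 0 0) (fun k s =>
    (s.1 + x s.2 - x (f (s.1 + x s.2) k s.2),
      f (s.1 + x s.2 - x (f (s.1 + x s.2) k s.2)) (k + 1) (f (s.1 + x s.2) k s.2))) k
  have hs1 : ∀ k, (st (k + 1)).1 = (st k).1 + x (st k).2 -
    x (f ((st k).1 + x (st k).2) k (st k).2) := fun k => rfl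
  have hs2 : ∀ k, (st (k + 1)).2 =
    f (st (k + 1)).1 (k + 1) (f ((st k).1 + x (st k).2) k (st k).2) := fun k => rfl
  have hinv : ∀ k, ∃ N, (st k).2 = f (st k).1 k N := by
    intro k
    cases k with
    | zero => exact ⟨0, rfl⟩
    | succ k => exact ⟨_, hs2 k⟩
  have hb : CauchySeq fun k => (st k).1 := by
    refine cauchySeq_of_le_geometric (1 / 2) 1 (by norm_num) fun k => ?_
    obtain ⟨N, hN⟩ := hinv k
    have h1 := (le_max_left _ _).trans (hf1 ((st k).1 + x (st k).2) k (st k).2)
    have h2 := (hf2 (st k).1 k N _ (hN ▸ h1)).2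
    rw [← hN] at h2
    rw [hs1, one_mul]
    refine le_of_eq_of_le (congrArg (dist _) ?_) h2.le
    abel
  have ha : CauchySeq fun k => (st k).1 + x (st k).2 := by
    refine cauchySeq_of_le_geometric (1 / 2) 1 (by norm_num) fun k => ?_
    have h1 := (le_max_left _ _).trans
      (hf1 (st (k + 1)).1 (k + 1) (f ((st k).1 + x (st k).2) k (st k).2))
    rw [← hs2] at h1
    have h2 := (hf2 ((st k).1 + x (st k).2) k (st k).2 _ h1).1
    rw [hs1, one_mul]
    refine le_of_eq_of_le (congrArg (dist _) ?_) h2.le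
    abel
  obtain ⟨b, hb⟩ := cauchySeq_tendsto_of_complete hb
  obtain ⟨a, ha⟩ := cauchySeq_tendsto_of_complete ha
  refine ⟨fun k => (st k).2, a - b, tendsto_atTop_mono (fun k => ?_) tendsto_id, ?_⟩
  · obtain ⟨N, hN⟩ := hinv k
    rw [hN]
    exact (le_max_right _ _).trans (hf1 _ _ _)
  · simpa [Function.comp_def] using ha.sub hb

lemma completeSpace_of_completelyMetrizable {X : Type*} [NormedAddCommGroup X]
    [TopologicalSpace.IsCompletelyMetrizableSpace X] : CompleteSpace X := by
  refine Metric.complete_of_cauchySeq_tendsto fun x hx => ?_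
  obtain ⟨φ, a, h1, h2⟩ := exists_subseq_tendsto x (by
    intro U hU
    obtain ⟨ε, h0, h1⟩ := Metric.mem_nhds_iff.1 hU
    obtain ⟨n₀, h⟩ := Metric.cauchySeq_iff.1 hx ε h0
    exact ⟨n₀, fun m hm n hn => h1 (by simpa [dist_eq_norm] using h m hm n hn)⟩)
  exact ⟨a, tendsto_nhds_of_cauchySeq_of_subseq hx h1 h2⟩

end Pool.Agent.P.MP_ceb5ee_gt
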