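import Pool.Agent.P.MP_ceb5ee_gt.Defs
import Pool.Agent.P.MP_ceb5ee_gt.Norm
import Pool.Agent.P.MP_ceb5ee_gt.HCode
import Pool.Agent.P.MP_ceb5ee_gt.HEnc
import Pool.Agent.P.MP_ceb5ee_gt.HThin

/-! A coanalytic set meeting every translate of a Cantor set in at most one point, all of whose
Borel supersets are large. -/

namespace Pool.Agent.P.MP_ceb5ee_gt.Haar

open Set Filter Topology MeasureTheory Encodable Function

/-- The set of indices of the bits: the bits of a code, and the bits describing a thin map. -/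
abbrev Ix : Type := (List ℕ × Option ℕ) ⊕ (List Bool × ℕ)

section Normed

variable {X : Type} [NormedAddCommGroup X]

/-- The bits read off a point. -/
def rd (Z : ℕ → Set X) (a : X) (i : Ix) : Prop := ∃ j : ℕ, j.unpair.1 = encode i ∧ a ∈ Z j

/-- The basic balls. -/
def bl (q : ℕ → X) (i : ℕ) : Set X := {a | ‖a - q i.unpair.1‖ < 1 / (i.unpair.2 + 1)}

/-- The point `a` is the one described by the canonical generic chain. -/
def Conv (q : ℕ → X) (c : List ℕ × Option ℕ → Prop) (G : List Bool × ℕ → Prop)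
    (L : List ℕ × List Bool → Prop) (a : X) : Prop :=
  (∀ n s s' i, Ch c G L n s → s' <+: s → G (s', i) → a ∈ bl q i) ∧
    ∀ l, ∃ n s s' i, Ch c G L n s ∧ s' <+: s ∧ G (s', i) ∧ l ≤ i.unpair.2

/-- The condition on the bits `y` and the point `a`. -/
def Sel (q : ℕ → X) (y : Ix → Prop) (a : X) : Prop :=
  WellFounded (Child fun p => y (Sum.inl p)) ∧
    ∀ L, Fix (fun p => y (Sum.inl p)) (fun p => y (Sum.inr p)) L →
      Conv q (fun p => y (Sum.inl p)) (fun p => y (Sum.inr p)) L a

/-- The coanalytic set. -/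
def hSet (q : ℕ → X) (Z : ℕ → Set X) (g : (ℕ → Bool) → X) (a : X) : Prop :=
  (∀ τ : (ℕ → Bool) × (ℕ → Bool), ∀ i, rd Z (a + (g τ.1 - g τ.2)) i ↔ rd Z a i) ∧ Sel q (rd Z a) a

lemma Sel.unique {q : ℕ → X} {y : Ix → Prop} {a a' : X} (h : Sel q y a) (h' : Sel q y a') :
    a = a' := by
  obtain ⟨L, hL⟩ := exists_fix (G := fun p => y (Sum.inr p)) h.1
  rw [← sub_eq_zero, ← norm_le_zero_iff]
  have t : Tendsto (fun l : ℕ => 2 * (1 / ((l : ℝ) + 1))) atTop (𝓝 (2 * 0)) :=
    tendsto_one_div_add_atTop_nhds_zero_nat.const_mul 2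
  rw [mul_zero] at t
  refine ge_of_tendsto' t fun l => ?_
  obtain ⟨n, s, s', i, k1, k2, k3, k4⟩ := (h.2 L hL).2 l
  have b1 : ‖a - q i.unpair.1‖ < 1 / (i.unpair.2 + 1) := (h.2 L hL).1 n s s' i k1 k2 k3
  have b2 : ‖a' - q i.unpair.1‖ < 1 / (i.unpair.2 + 1) := (h'.2 L hL).1 n s s' i k1 k2 k3
  have b3 : (1 : ℝ) / (i.unpair.2 + 1) ≤ 1 / (l + 1) :=
    one_div_le_one_div_of_le (by positivity) (by exact_mod_cast Nat.succ_le_succ k4)
  have e : a - a' = (a - q i.unpair.1) - (a' - q i.unpair.1) := by abel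
  rw [e]
  linarith [norm_sub_le (a - q i.unpair.1) (a' - q i.unpair.1)]

lemma hSet_unique {q : ℕ → X} {Z : ℕ → Set X} {g : (ℕ → Bool) → X} {x : X} {σ τ : ℕ → Bool}
    (h : hSet q Z g (x + g σ)) (h' : hSet q Z g (x + g τ)) : g σ = g τ := by
  have e : rd Z (x + g τ) = rd Z (x + g σ) := by
    funext i
    have := h.1 (τ, σ) i
    rw [show x + g σ + (g τ - g σ) = x + g τ by abel] at this
    exact propext this
  have k := h'.2
  rw [e] at k
  exact add_left_cancel (h.2.unique k)

lemma isOpen_bl (q : ℕ → X) (i : ℕ) : IsOpen (bl q i) := isOpen_lt (by fun_prop) continuous_const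

lemma coAn_hSet [MeasurableSpace X] [BorelSpace X] [PolishSpace X] {Z : ℕ → Set X}
    (hZ : ∀ j, IsOpen (Z j)) (q : ℕ → X) {g : (ℕ → Bool) → X} (hg : Continuous g) :
    CoAn (hSet q Z g) := by
  have hdec : ∀ i, Measurable fun a => rd Z a i := fun i =>
    Measurable.exists fun j => measurable_const.and (hZ j).measurableSet.mem
  refine CoAn.and (CoAn.forall (P := fun p : X × ((ℕ → Bool) × (ℕ → Bool)) =>
    ∀ i, rd Z (p.1 + (g p.2.1 - g p.2.2)) i ↔ rd Z p.1 i) (CoAn.of_measurable ?_))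
    (CoAn.and (coAn_wf fun i => hdec _) (CoAn.forall
      (P := fun p : X × (List ℕ × List Bool → Prop) =>
        Fix (fun i => rd Z p.1 (Sum.inl i)) (fun i => rd Z p.1 (Sum.inr i)) p.2 →
        Conv q (fun i => rd Z p.1 (Sum.inl i)) (fun i => rd Z p.1 (Sum.inr i)) p.2 p.1)
      (CoAn.of_measurable ?_)))
  · have hm : Measurable fun p : X × ((ℕ → Bool) × (ℕ → Bool)) => p.1 + (g p.2.1 - g p.2.2) :=
      Continuous.measurable (by fun_prop)
    exact Measurable.forall fun i => ((hdec i).comp hm).iff ((hdec i).comp measurable_fst)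
  · have hy : ∀ i, Measurable fun p : X × (List ℕ × List Bool → Prop) => rd Z p.1 i :=
      fun i => (hdec i).comp measurable_fst
    have hL : ∀ i, Measurable fun p : X × (List ℕ × List Bool → Prop) => p.2 i :=
      fun i => (measurable_pi_apply i).comp measurable_snd
    have hch := meas_ch (fun i => hy (Sum.inl i)) (fun i => hy (Sum.inr i)) hL
    refine (meas_fix (fun i => hy (Sum.inl i)) (fun i => hy (Sum.inr i)) hL).imp
      (Measurable.and ?_ ?_)
    · exact Measurable.forall fun n => Measurable.forall fun s => Measurable.forall fun _ =>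
        Measurable.forall fun i => (hch n s).imp (measurable_const.imp ((hy _).imp
          ((isOpen_bl q i).measurableSet.mem.comp measurable_fst)))
    · exact Measurable.forall fun _ => Measurable.exists fun n => Measurable.exists fun s =>
        Measurable.exists fun _ => Measurable.exists fun _ =>
          (hch n s).and (measurable_const.and ((hy _).and measurable_const))

lemma exists_bl {q : ℕ → X} (hq : DenseRange q) (z : X) (l : ℕ) :
    ∃ i, z ∈ bl q i ∧ i.unpair.2 = l := by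
  obtain ⟨m, hm⟩ := Metric.denseRange_iff.1 hq z (1 / (l + 1)) (by positivity)
  refine ⟨Nat.pair m l, ?_, by simp⟩
  simpa [bl, dist_eq_norm] using hm

lemma bl_basis {q : ℕ → X} (hq : DenseRange q) (U : Set X) (hU : IsOpen U) (z : X) (hz : z ∈ U) :
    ∃ i, z ∈ bl q i ∧ bl q i ⊆ U := by
  obtain ⟨r, h0, h1⟩ := Metric.isOpen_iff.1 hU z hz
  obtain ⟨l, hl⟩ := exists_nat_one_div_lt (half_pos h0)
  obtain ⟨i, h2, h3⟩ := exists_bl hq z l
  refine ⟨i, h2, fun a ha => h1 ?_⟩
  simp only [bl, h3, mem_ofPred_eq] at h2 ha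
  rw [Metric.mem_ball, dist_eq_norm]
  have e : a - z = (a - q i.unpair.1) - (z - q i.unpair.1) := by abel
  rw [e]
  linarith [norm_sub_le (a - q i.unpair.1) (z - q i.unpair.1)]

/-- Selection of a point outside `B` from sound and complete bits. -/
lemma exists_sel {q : ℕ → X} (hq : DenseRange q) {y : Ix → Prop} {D : List ℕ → Set X}
    (hc : WellFounded (Child fun p => y (Sum.inl p))) (hD : Val (bl q) (fun p => y (Sum.inl p)) D)
    {F : (ℕ → Bool) → X}
    (hsound : ∀ σ s i, In σ s → y (Sum.inr (s, i)) → F σ ∈ bl q i)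
    (hcompl : ∀ σ i, F σ ∈ bl q i → ∃ N, ∀ s, In σ s → N ≤ s.length → y (Sum.inr (s, i)))
    {s : List Bool} {T : ℕ → ℕ → Bool} (hT : ∀ σ, In σ s → (∀ n, σ ≠ T n) → F σ ∉ D []) :
    ∃ σ, Sel q y (F σ) ∧ F σ ∉ D [] := by
  obtain ⟨L, hL⟩ := exists_fix (G := fun p => y (Sum.inr p)) hc
  have hz : ∀ (p : ℕ → List Bool) (σ : ℕ → Bool),
      (∀ n, Step (fun p => y (Sum.inl p)) (fun p => y (Sum.inr p)) L n (p n) (p (n + 1))) →
      (∀ n, In σ (p n)) → ∀ i, F σ ∈ bl q i ↔ ∃ n s, s <+: p n ∧ y (Sum.inr (s, i)) := by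
    intro p σ hp hσ i
    constructor
    · intro h
      obtain ⟨N, hN⟩ := hcompl σ i h
      exact ⟨N + 1, _, List.prefix_rfl, hN _ (hσ _) (hp N).2.1.le⟩
    · rintro ⟨n, s, h1, h2⟩
      exact hsound σ s i ((hσ n).mono h1) h2
  obtain ⟨p, hp0, hp, hch⟩ := exists_chain (c := fun p => y (Sum.inl p))
    (G := fun p => y (Sum.inr p)) (L := L)
  obtain ⟨σ, hσ⟩ := exists_limit (fun n => (hp n).1) fun n => (hp n).2.1
  refine ⟨σ, ⟨hc, fun L' hL' => ?_⟩, fun hB => ?_⟩
  · rw [hL'.unique hc hL]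
    refine ⟨fun n s s' i h1 h2 h3 => (hz p σ hp hσ i).2 ⟨n, s', (hch n s).1 h1 ▸ h2, h3⟩,
      fun l => ?_⟩
    obtain ⟨i, h1, h2⟩ := exists_bl hq (F σ) l
    obtain ⟨n, s', h3, h4⟩ := (hz p σ hp hσ i).1 h1
    exact ⟨n, p n, s', i, (hch n _).2 rfl, h3, h4, h2.ge⟩
  · rcases hp0 with h | h
    · obtain ⟨n, hn⟩ := (truth hc hD hL hp (hz p σ hp hσ) []).1 hB
      exact h _ (chain_mono (fun n => (hp n).1) (Nat.zero_le n)) hn
    · obtain ⟨t, h1, h2⟩ := h s
      obtain ⟨p', k0, k1, k2⟩ := exists_avoid (fun p => y (Sum.inl p)) (fun p => y (Sum.inr p))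
        L t T
      obtain ⟨τ, hτ⟩ := exists_limit (fun n => (k1 n).1) fun n => (k1 n).2.1
      refine hT τ ((hτ 0).mono (k0 ▸ h1)) (fun n e => k2 n (e ▸ hτ (n + 1))) ?_
      exact (truth hc hD hL k1 (hz p' τ k1 hτ) []).2 ⟨0, k0 ▸ h2⟩

theorem haar_normed [CompleteSpace X] [SecondCountableTopology X]
    (hX : ∀ ε > 0, ∃ x : X, x ≠ 0 ∧ ‖x‖ < ε) :
    ∃ A : Set X, AnalyticSet Aᶜ ∧
      (∃ g : (ℕ → Bool) → X, Continuous g ∧ Injective g ∧
        ∀ x, {σ | x + g σ ∈ A}.Subsingleton) ∧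
      ∀ B : Set X, MeasurableSet[borel X] B → A ⊆ B → ¬ NullFinite B ∧
        ∀ g : (ℕ → Bool) → X, Continuous g → ∃ x, ¬ {σ | x + g σ ∈ B}.Countable := by
  classical
  borelize X
  obtain ⟨ε, Z, h0, he0, h1, hZ, hhit, havoid⟩ := exists_scales hX fun j => 8 ^ (j + 1)
  have hanti : Antitone ε := antitone_nat_of_succ_le fun j => by linarith [h1 j, h0 j]
  have hlim : Tendsto ε atTop (𝓝 0) := by
    have hgeo : ∀ j, ε j ≤ ε 0 * (1 / 8) ^ j := by
      intro j
      induction j with
      | zero => simp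
      | succ j ih => rw [pow_succ]; linarith [h1 j]
    have := (tendsto_pow_atTop_nhds_zero_of_lt_one (r := (1 / 8 : ℝ)) (by norm_num)
      (by norm_num)).const_mul (ε 0)
    rw [mul_zero] at this
    exact squeeze_zero (fun j => (h0 j).le) hgeo this
  have hperf : Perfect (univ : Set X) := by
    refine ⟨isClosed_univ, fun x _ => accPt_iff_nhds.2 fun U hU => ?_⟩
    obtain ⟨r, k0, k1⟩ := Metric.mem_nhds_iff.1 hU
    obtain ⟨v, k2, k3⟩ := hX r k0
    exact ⟨x + v, ⟨k1 (by simpa using k3), trivial⟩, by simpa using k2⟩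
  obtain ⟨g0, -, hg1, hg2⟩ := hperf.exists_nat_bool_injection univ_nonempty
  obtain ⟨e, he1, he2, hg⟩ := exists_thin hg1 fun n => h0 (lev n)
  set g := g0 ∘ e with hgdef
  have hgc : Continuous g := hg1.comp he1
  have hgi : Injective g := hg2.comp he2
  let q := TopologicalSpace.denseSeq X
  have hq : DenseRange q := TopologicalSpace.denseRange_denseSeq X
  have key : ∀ B : Set X, MeasurableSet B → {a | hSet q Z g a} ⊆ B →
      ∀ f, Thin (fun n => ε (lev n)) f → ¬ Esc f B := by
    intro B hB hAB f hf hesc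
    obtain ⟨c, D, hc, hD, rfl⟩ := exists_coded (bl_basis hq) hB
    let bit' : Ix → X → Prop := Sum.elim (fun p _ => c p) fun p b =>
      ‖b + f (fun j => p.1.getD j false) - q p.2.unpair.1‖ + 3 * ε p.1.length <
        1 / (p.2.unpair.2 + 1)
    obtain ⟨x, xs, hx1, hx2⟩ := exists_encoding' h0 h1 hhit havoid _ (net_three hf hg)
      fun i b => ∃ p : Ix, encode p = i ∧ bit' p b
    let y : Ix → Prop := fun p => bit' p (xs (encode p))
    have hy : ∀ σ τ τ', rd Z (x + f σ + (g τ - g τ')) = y := by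
      intro σ τ τ'
      funext p
      have := hx2 (σ, τ, τ') (encode p)
      simp only [encode_inj, exists_eq_left] at this
      rw [rd, add_assoc, this]
    have hy0 : ∀ σ, rd Z (x + f σ) = y := fun σ => by simpa using hy σ σ σ
    have hclose : ∀ σ s (i : ℕ), In σ s → ‖(x + f σ) - (xs (encode (Sum.inr (s, i) : Ix)) +
        f fun j => s.getD j false)‖ ≤ 3 * ε s.length := by
      intro σ s i hs
      have a1 : s.length ≤ encode (Sum.inr (s, i) : Ix) := by
        have b1 := Nat.left_le_pair (encode s) i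
        have b2 := length_le_encode s
        simp only [encode_inr, encode_prod_val, encode_nat]
        omega
      have a2 := hx1 (encode (Sum.inr (s, i) : Ix))
      have a3 := hf s.length σ (fun j => s.getD j false) fun j hj => (hs j hj).symm
      rw [add_sub_add_comm]
      linarith [norm_add_le (x - xs (encode (Sum.inr (s, i) : Ix)))
        (f σ - f fun j => s.getD j false), hanti a1, hanti (le_lev s.length)]
    obtain ⟨s, T, hT⟩ := hesc x
    obtain ⟨σ, k1, k2⟩ := exists_sel (y := y) (F := fun σ => x + f σ) hq hc hD (fun σ s i a1 a2 => by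
      have a3 := hclose σ s i a1
      change ‖xs (encode (Sum.inr (s, i) : Ix)) + f (fun j => s.getD j false) - q i.unpair.1‖ +
        3 * ε s.length < 1 / (i.unpair.2 + 1) at a2
      change ‖x + f σ - q i.unpair.1‖ < 1 / (i.unpair.2 + 1)
      linarith [norm_sub_le_norm_sub_add_norm_sub (x + f σ) (xs (encode (Sum.inr (s, i) : Ix)) +
        f fun j => s.getD j false) (q i.unpair.1)]) (fun σ i a1 => by
      change ‖x + f σ - q i.unpair.1‖ < 1 / (i.unpair.2 + 1) at a1
      obtain ⟨N, hN⟩ := (hlim.eventually (gt_mem_nhds (show (0 : ℝ) <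
        (1 / (i.unpair.2 + 1) - ‖x + f σ - q i.unpair.1‖) / 6 by linarith))).exists
      refine ⟨N, fun s a2 a3 => ?_⟩
      have a4 := hclose σ s i a2
      change ‖xs (encode (Sum.inr (s, i) : Ix)) + f (fun j => s.getD j false) - q i.unpair.1‖ +
        3 * ε s.length < 1 / (i.unpair.2 + 1)
      rw [norm_sub_rev] at a4
      linarith [norm_sub_le_norm_sub_add_norm_sub (xs (encode (Sum.inr (s, i) : Ix)) +
        f fun j => s.getD j false) (x + f σ) (q i.unpair.1), hanti a3]) hT
    refine k2 (hAB ⟨fun τ i => ?_, ?_⟩)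
    · rw [hy, hy0]
    · rw [hy0]
      exact k1
  refine ⟨{a | hSet q Z g a}, (coAn_hSet hZ q hgc).analyticSet_compl,
    ⟨g, hgc, hgi, fun x σ hσ τ hτ => hgi (hSet_unique hσ hτ)⟩, fun B hB hAB => ⟨?_, ?_⟩⟩
  · rintro ⟨s, hs, hsB⟩
    obtain ⟨f, k1, k2⟩ := esc_of_null hs hsB fun n => h0 (lev n)
    exact key B hB hAB f k1 k2
  · intro g' hg'
    by_contra h
    push Not at h
    obtain ⟨f, k1, k2⟩ := esc_of_countable hg' h fun n => h0 (lev n)
    exact key B hB hAB f k1 k2

end Normed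

lemma nullFinite_of_cantor {X : Type} [AddCommGroup X] [TopologicalSpace X]
    [IsTopologicalAddGroup X] {A : Set X} {g : (ℕ → Bool) → X} (hg : Continuous g)
    (h : ∀ x, {σ | x + g σ ∈ A}.Subsingleton) : NullFinite A := by
  let τ : ℕ → ℕ → Bool := fun n i => decide (i = n)
  have h1 : Tendsto τ atTop (𝓝 fun _ => false) := by
    refine tendsto_pi_nhds.2 fun i => tendsto_const_nhds.congr' ?_
    filter_upwards [eventually_gt_atTop i] with n hn
    simp [τ, hn.ne]
  refine ⟨fun n => g (τ n) - g fun _ => false, ?_, fun x => Set.Subsingleton.finite ?_⟩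
  · simpa using ((hg.tendsto _).comp h1).sub_const (g fun _ => false)
  · intro n hn m hm
    have e : ∀ k, x + (g (τ k) - g fun _ => false) = (x - g fun _ => false) + g (τ k) :=
      fun k => by abel
    simp only [mem_ofPred_eq, e] at hn hm
    simpa [τ] using congrFun (h _ hn hm) n

theorem haar_main (X : Type) [AddCommGroup X] [τ : TopologicalSpace X] [IsTopologicalAddGroup X]
    [PolishSpace X] (hd : ¬ DiscreteTopology X) :
    ∃ A : Set X, AnalyticSet Aᶜ ∧
      (∃ g : (ℕ → Bool) → X, Continuous g ∧ Injective g ∧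
        ∀ x, {σ | x + g σ ∈ A}.Subsingleton) ∧
      ∀ B : Set X, MeasurableSet[borel X] B → A ⊆ B → ¬ NullFinite B ∧
        ∀ g : (ℕ → Bool) → X, Continuous g → ∃ x, ¬ {σ | x + g σ ∈ B}.Countable := by
  obtain ⟨N, hN⟩ := exists_groupNorm X
  have e : τ = N.toNormedAddCommGroup.toMetricSpace.toUniformSpace.toTopologicalSpace := by
    let _ := N.toNormedAddCommGroup
    refine IsTopologicalAddGroup.ext inferInstance inferInstance ?_
    refine hN.eq_of_same_basis ?_
    convert @Metric.nhds_basis_ball X N.toNormedAddCommGroup.toMetricSpace.toPseudoMetricSpace 0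
      using 2 with ε
    ext x
    exact (mem_ball_zero_iff (a := x) (r := ε)).symm
  subst e
  let _ := N.toNormedAddCommGroup
  have : CompleteSpace X := completeSpace_of_completelyMetrizable
  refine haar_normed (X := X) ?_
  intro ε hε
  by_contra hc
  push Not at hc
  apply hd
  rw [discreteTopology_iff_isOpen_singleton_zero]
  convert Metric.isOpen_ball (x := (0 : X)) (ε := ε)
  ext x
  simp only [mem_singleton_iff, mem_ball_zero_iff]
  exact ⟨fun h => by simpa [h] using hε, fun h => by_contra fun k => absurd (hc x k) (not_le.2 h)⟩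

end Pool.Agent.P.MP_ceb5ee_gt.Haar
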