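import Mathlib

/-! A robust multi-scale encoding of bits in the points of a non-discrete complete normed group. -/

namespace Pool.Agent.P.MP_ceb5ee_gt

open Set Filter Topology

variable {X : Type*} [NormedAddCommGroup X]

lemma exists_net (ε : ℝ) (hε : 0 < ε) : ∃ D : Set X,
    (∀ d ∈ D, ∀ d' ∈ D, ‖d - d'‖ < ε → d = d') ∧ ∀ x, ∃ d ∈ D, ‖d - x‖ < ε := by
  obtain ⟨D, hD⟩ := zorn_subset {D : Set X | ∀ d ∈ D, ∀ d' ∈ D, ‖d - d'‖ < ε → d = d'} (by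
    intro c hc hchain
    refine ⟨⋃₀ c, ?_, fun s hs => subset_sUnion_of_mem hs⟩
    rintro d ⟨s, hs, hd⟩ d' ⟨s', hs', hd'⟩ h
    rcases hchain.total hs hs' with k | k
    · exact hc hs' d (k hd) d' hd' h
    · exact hc hs d hd d' (k hd') h)
  refine ⟨D, hD.prop, fun x => ?_⟩
  by_contra h
  push Not at h
  have h1 : insert x D ∈ {D : Set X | ∀ d ∈ D, ∀ d' ∈ D, ‖d - d'‖ < ε → d = d'} := by
    rintro d (rfl | hd) d' (rfl | hd') k
    · rfl
    · exact absurd (norm_sub_rev d d' ▸ k) (not_lt.2 (h d' hd'))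
    · exact absurd k (not_lt.2 (h d hd))
    · exact hD.prop d hd d' hd' k
  have h2 := hD.eq_of_subset h1 (subset_insert x D)
  have h3 := h x (h2 ▸ mem_insert x D)
  simp only [sub_self, norm_zero] at h3
  linarith

lemma infinite_ball (hX : ∀ ε > 0, ∃ x : X, x ≠ 0 ∧ ‖x‖ < ε) (ε : ℝ) (hε : 0 < ε) :
    {x : X | ‖x‖ < ε}.Infinite := by
  intro hfin
  obtain ⟨x0, h0, h1⟩ := hX ε hε
  obtain ⟨x, ⟨hx1, hx2⟩, hmin⟩ := exists_min_image ({x : X | ‖x‖ < ε} \ {0}) (fun x => ‖x‖)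
    hfin.sdiff ⟨x0, h1, h0⟩
  obtain ⟨y, hy1, hy2⟩ := hX ‖x‖ (norm_pos_iff.2 hx2)
  exact absurd (hmin y ⟨hy2.trans hx1, hy1⟩) (not_le.2 hy2)

lemma exists_scale (hX : ∀ ε > 0, ∃ x : X, x ≠ 0 ∧ ‖x‖ < ε) (ε : ℝ) (hε : 0 < ε) (M : ℕ) :
    ∃ δ : ℝ, 0 < δ ∧ δ ≤ ε ∧ ∃ Z : Set X, IsOpen Z ∧
      (∀ x, ∃ v, ‖v‖ ≤ ε ∧ ∀ w, ‖w‖ ≤ δ → x + v + w ∈ Z) ∧
      (∀ S : Finset X, S.card ≤ M → ∃ v, ‖v‖ ≤ ε ∧ ∀ σ ∈ S, ∀ w, ‖w‖ ≤ δ → σ + v + w ∉ Z) := by
  classical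
  obtain ⟨D, hD1, hD2⟩ := exists_net (X := X) ε hε
  obtain ⟨F, hF1, hF2⟩ := (infinite_ball hX (ε / 4) (by positivity)).exists_subset_card_eq (M + 1)
  obtain ⟨δ, hδ0, hδ1, hδ2⟩ : ∃ δ : ℝ, 0 < δ ∧ δ ≤ ε / 12 ∧
      ∀ f ∈ F, ∀ f' ∈ F, ‖f - f'‖ < 6 * δ → f = f' := by
    obtain ⟨C, hC0, hC⟩ := F.finite_toSet.relatively_discrete
    obtain ⟨r, hr0, hr⟩ := ENNReal.lt_iff_exists_real_btwn.1 hC0
    have hr1 : 0 < r := ENNReal.ofReal_pos.1 hr.1
    refine ⟨min (ε / 12) (r / 6), by positivity, min_le_left _ _, fun f hf f' hf' h => ?_⟩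
    by_contra hne
    refine absurd (hC f hf f' hf' hne) (not_le.2 (lt_trans ?_ hr.2))
    rw [edist_dist, dist_eq_norm]
    refine (ENNReal.ofReal_lt_ofReal_iff hr1).2 (h.trans_le ?_)
    linarith [min_le_right (ε / 12) (r / 6)]
  refine ⟨δ, hδ0, by linarith, ⋃ d ∈ D, Metric.ball d (2 * δ),
    isOpen_biUnion fun _ _ => Metric.isOpen_ball, fun x => ?_, fun S hS => ?_⟩
  · obtain ⟨d, hd1, hd2⟩ := hD2 x
    refine ⟨d - x, hd2.le, fun w hw => mem_biUnion hd1 ?_⟩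
    rw [Metric.mem_ball, dist_eq_norm]
    have : x + (d - x) + w - d = w := by abel
    rw [this]; linarith
  · by_contra h
    push Not at h
    have h' : ∀ f ∈ F, ∃ σ ∈ S, ∃ w, ‖w‖ ≤ δ ∧ σ + f + w ∈ ⋃ d ∈ D, Metric.ball d (2 * δ) :=
      fun f hf => h f (by have : ‖f‖ < ε / 4 := hF1 hf; linarith)
    choose! g hg1 hg2 using h'
    have hinj : InjOn g F := by
      intro f hf f' hf' e
      obtain ⟨w, hw, k⟩ := hg2 f hf
      obtain ⟨w', hw', k'⟩ := hg2 f' hf'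
      simp only [mem_iUnion, Metric.mem_ball, dist_eq_norm, exists_prop] at k k'
      obtain ⟨d, hd, k⟩ := k
      obtain ⟨d', hd', k'⟩ := k'
      rw [← e] at k'
      have n1 : ‖f‖ < ε / 4 := hF1 hf
      have n2 : ‖f'‖ < ε / 4 := hF1 hf'
      have e1 : d - d' = (f - f') + ((w - w') + ((g f + f' + w' - d') - (g f + f + w - d))) := by
        abel
      have b1 := norm_sub_le (g f + f' + w' - d') (g f + f + w - d)
      have b2 := norm_sub_le w w'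
      have b3 := norm_add_le (w - w') ((g f + f' + w' - d') - (g f + f + w - d))
      have b4 := norm_add_le (f - f') ((w - w') + ((g f + f' + w' - d') - (g f + f + w - d)))
      have b5 := norm_sub_le f f'
      have hdd : d = d' := hD1 d hd d' hd' (by rw [e1]; linarith)
      apply hδ2 f hf f' hf'
      have e2 : f - f' = -((w - w') + ((g f + f' + w' - d') - (g f + f + w - d))) := by
        rw [hdd]; abel
      rw [e2, norm_neg]
      linarith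
    have := Finset.card_le_card_of_injOn g hg1 hinj
    omega

lemma exists_scales (hX : ∀ ε > 0, ∃ x : X, x ≠ 0 ∧ ‖x‖ < ε) (M : ℕ → ℕ) :
    ∃ (ε : ℕ → ℝ) (Z : ℕ → Set X), (∀ j, 0 < ε j) ∧ ε 0 = 1 / 4 ∧ (∀ j, ε (j + 1) ≤ ε j / 8) ∧
      (∀ j, IsOpen (Z j)) ∧
      (∀ j x, ∃ v, ‖v‖ ≤ ε j ∧ ∀ w, ‖w‖ ≤ 8 * ε (j + 1) → x + v + w ∈ Z j) ∧
      (∀ j (S : Finset X), S.card ≤ M j →
        ∃ v, ‖v‖ ≤ ε j ∧ ∀ σ ∈ S, ∀ w, ‖w‖ ≤ 8 * ε (j + 1) → σ + v + w ∉ Z j) := by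
  choose δ h1 h2 Z h3 h4 h5 using exists_scale hX
  let e : ℕ → {r : ℝ // 0 < r} := fun j =>
    Nat.rec ⟨1 / 4, by norm_num⟩ (fun j r => ⟨δ r.1 r.2 (M j) / 8, by
      have := h1 r.1 r.2 (M j); positivity⟩) j
  have he : ∀ j, 8 * (e (j + 1)).1 = δ (e j).1 (e j).2 (M j) := fun j => by
    simp only [e]; ring
  refine ⟨fun j => (e j).1, fun j => Z (e j).1 (e j).2 (M j), fun j => (e j).2, rfl, fun j => ?_,
    fun j => h3 _ _ _, fun j => ?_, fun j => ?_⟩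
  · have := h2 (e j).1 (e j).2 (M j)
    have := he j
    linarith
  · simp only [he]; exact h4 _ _ _
  · simp only [he]; exact h5 _ _ _

/-- The sequence of approximations; the step at stage `j` may look at an earlier stage. -/
noncomputable def approx (step : ℕ → X → X → X) : ℕ → X
  | 0 => 0
  | j + 1 => approx step j + step j (approx step j) (approx step (min j.unpair.1 j))
decreasing_by all_goals omega

lemma exists_encoding [CompleteSpace X] {M : ℕ → ℕ} {ε : ℕ → ℝ} {Z : ℕ → Set X}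
    (h0 : ∀ j, 0 < ε j) (h1 : ∀ j, ε (j + 1) ≤ ε j / 8)
    (hhit : ∀ j x, ∃ v, ‖v‖ ≤ ε j ∧ ∀ w, ‖w‖ ≤ 8 * ε (j + 1) → x + v + w ∈ Z j)
    (havoid : ∀ j (S : Finset X), S.card ≤ M j →
      ∃ v, ‖v‖ ≤ ε j ∧ ∀ σ ∈ S, ∀ w, ‖w‖ ≤ 8 * ε (j + 1) → σ + v + w ∉ Z j)
    (P : ℕ → X) (hP : ∀ j, ∃ S : Finset X, S.card ≤ M j ∧ ∀ r, ∃ σ ∈ S, ‖P r - σ‖ ≤ 3 * ε (j + 1))
    (bit : ℕ → X → Prop) :
    ∃ (x : X) (xs : ℕ → X), (∀ i, ‖x - xs i‖ ≤ 2 * ε i) ∧
      ∀ r i, (∃ j, j.unpair.1 = i ∧ x + P r ∈ Z j) ↔ bit i (xs i) := by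
  classical
  have hstep : ∀ (j : ℕ) (a b : X), ∃ v, ‖v‖ ≤ ε j ∧
      (bit j.unpair.1 b → ∀ w, ‖w‖ ≤ 2 * ε (j + 1) → a + v + w + P j.unpair.2 ∈ Z j) ∧
      (¬ bit j.unpair.1 b → ∀ r w, ‖w‖ ≤ 2 * ε (j + 1) → a + v + w + P r ∉ Z j) := by
    intro j a b
    by_cases hb : bit j.unpair.1 b
    · obtain ⟨v, k1, k2⟩ := hhit j (a + P j.unpair.2)
      refine ⟨v, k1, fun _ w hw => ?_, fun h => absurd hb h⟩
      have := k2 w (by linarith [h0 (j + 1)])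
      convert this using 1; abel
    · obtain ⟨S, k0, k3⟩ := hP j
      obtain ⟨v, k1, k2⟩ := havoid j (S.image (a + ·)) (Finset.card_image_le.trans k0)
      refine ⟨v, k1, fun h => absurd h hb, fun _ r w hw => ?_⟩
      obtain ⟨σ, k4, k5⟩ := k3 r
      have := k2 (a + σ) (Finset.mem_image.2 ⟨σ, k4, rfl⟩) (w + (P r - σ))
        ((norm_add_le _ _).trans (by linarith [h0 (j + 1)]))
      convert this using 2; abel
  choose step s1 s2 s3 using hstep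
  set xs := approx step with hxs
  have hsucc : ∀ j, xs (j + 1) = xs j + step j (xs j) (xs j.unpair.1) := by
    intro j
    rw [hxs, approx, min_eq_left (Nat.unpair_left_le j)]
  have hdist : ∀ i k, ‖xs (i + k) - xs i‖ ≤ 2 * ε i - 2 * ε (i + k) := by
    intro i k
    induction k with
    | zero => simp
    | succ k ih =>
      rw [← add_assoc, hsucc]
      have e : xs (i + k) + step (i + k) (xs (i + k)) (xs (i + k).unpair.1) - xs i =
        (xs (i + k) - xs i) + step (i + k) (xs (i + k)) (xs (i + k).unpair.1) := by abel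
      rw [e]
      refine (norm_add_le _ _).trans ?_
      have := s1 (i + k) (xs (i + k)) (xs (i + k).unpair.1)
      have := h1 (i + k)
      have := h0 (i + k)
      linarith
  have hgeo : ∀ j, ε j ≤ ε 0 * (1 / 8) ^ j := by
    intro j
    induction j with
    | zero => simp
    | succ j ih => rw [pow_succ]; linarith [h1 j]
  have hcauchy : CauchySeq xs := by
    refine cauchySeq_of_le_geometric (1 / 8) (ε 0) (by norm_num) fun j => ?_
    rw [dist_comm, dist_eq_norm, hsucc, add_sub_cancel_left]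
    exact (s1 _ _ _).trans (hgeo j)
  obtain ⟨x, hx⟩ := cauchySeq_tendsto_of_complete hcauchy
  have hlim : ∀ i, ‖x - xs i‖ ≤ 2 * ε i := by
    intro i
    have t1 : Tendsto (fun k => ‖xs (k + i) - xs i‖) atTop (𝓝 ‖x - xs i‖) :=
      (((tendsto_add_atTop_iff_nat i).2 hx).sub_const _).norm
    refine le_of_tendsto' t1 fun k => ?_
    rw [add_comm]
    linarith [hdist i k, h0 (i + k)]
  have hx' : ∀ j, x = xs j + step j (xs j) (xs j.unpair.1) + (x - xs (j + 1)) := by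
    intro j; rw [← hsucc]; abel
  refine ⟨x, xs, hlim, fun r i => ⟨?_, fun hb => ?_⟩⟩
  · rintro ⟨j, rfl, hj⟩
    by_contra hb
    rw [hx' j] at hj
    exact s3 j _ _ hb r _ (hlim (j + 1)) hj
  · refine ⟨Nat.pair i r, by simp, ?_⟩
    have := s2 (Nat.pair i r) (xs (Nat.pair i r)) (xs (Nat.pair i r).unpair.1)
      (by simpa using hb) _ (hlim (Nat.pair i r + 1))
    rw [← hx'] at this
    simpa using this

end Pool.Agent.P.MP_ceb5ee_gt
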