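import Pool.Agent.P.MP_ceb5ee_gt.Defs
import Pool.Agent.P.MP_ceb5ee_gt.Codes
import Pool.Agent.P.MP_ceb5ee_gt.Scale
import Pool.Agent.P.MP_ceb5ee_gt.Norm

/-! A coanalytic null-finite set without a Borel null-finite hull. -/

namespace Pool.Agent.P.MP_ceb5ee_gt

open Set Filter Topology MeasureTheory Encodable

/-- The set of indices of the bits: the bits of a code, and the bits describing points. -/
abbrev Idx : Type := (List ℕ × Option ℕ) ⊕ (ℕ × ℕ × ℕ)

section Normed

variable {X : Type} [NormedAddCommGroup X]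

/-- The bits read off a point. -/
def dec (Z : ℕ → Set X) (a : X) (i : Idx) : Prop := ∃ j : ℕ, j.unpair.1 = encode i ∧ a ∈ Z j

/-- The bits `y` describe `z` as the point number `k`. -/
def Pt (q : ℕ → X) (y : Idx → Prop) (k : ℕ) (z : X) : Prop :=
  ∀ m l : ℕ, y (Sum.inr (k, m, l)) → ‖z - q m‖ ≤ 2 / (l + 1)

/-- The bits `y` describe at most one point for every number. -/
def Rich (y : Idx → Prop) : Prop := ∀ k l : ℕ, ∃ m, y (Sum.inr (k, m, l))

lemma Pt.unique {q : ℕ → X} {y : Idx → Prop} {k : ℕ} {z z' : X} (hy : Rich y) (h : Pt q y k z)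
    (h' : Pt q y k z') : z = z' := by
  rw [← sub_eq_zero, ← norm_le_zero_iff]
  have t : Tendsto (fun l : ℕ => 4 * (1 / ((l : ℝ) + 1))) atTop (𝓝 (4 * 0)) :=
    tendsto_one_div_add_atTop_nhds_zero_nat.const_mul 4
  rw [mul_zero] at t
  refine ge_of_tendsto' t fun l => ?_
  obtain ⟨m, hm⟩ := hy k l
  have e : z - z' = (z - q m) - (z' - q m) := by abel
  rw [e]
  refine (norm_sub_le _ _).trans ((add_le_add (h m l hm) (h' m l hm)).trans (le_of_eq ?_))
  ring

/-- The coanalytic set. -/
def theSet (O : ℕ → Set X) (Z : ℕ → Set X) (q t : ℕ → X) (a : X) : Prop :=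
  (Rich (dec Z a) ∧ ∀ n m i, dec Z (a + (t n - t m)) i ↔ dec Z a i) ∧
    ∃ k : ℕ, (Pt q (dec Z a) k a ∧ V O (fun p => dec Z a (Sum.inl p)) a [] false) ∧
      ∀ l : ℕ, ∀ z : X, l < k ∧ Pt q (dec Z a) l z → V O (fun p => dec Z a (Sum.inl p)) z [] true

lemma theSet_unique {O Z : ℕ → Set X} {q t : ℕ → X} {a : X} {n m : ℕ} (h : theSet O Z q t a)
    (h' : theSet O Z q t (a + (t n - t m))) : t n = t m := by
  obtain ⟨⟨h1, h2⟩, k, ⟨h3, h4⟩, h5⟩ := h
  obtain ⟨-, k', ⟨h3', h4'⟩, h5'⟩ := h'
  have e : dec Z (a + (t n - t m)) = dec Z a := funext fun i => propext (h2 n m i)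
  rw [e] at h3' h4' h5'
  rcases lt_trichotomy k k' with hk | rfl | hk
  · exact absurd h4 (h5' k a ⟨hk, h3⟩).not_both
  · have := h3'.unique h1 h3
    rwa [add_eq_left, sub_eq_zero] at this
  · exact absurd h4' (h5 k' _ ⟨hk, h3'⟩).not_both

lemma coAn_theSet [MeasurableSpace X] [BorelSpace X] [PolishSpace X] {O Z : ℕ → Set X}
    (hO : ∀ i, IsOpen (O i)) (hZ : ∀ j, IsOpen (Z j)) (q t : ℕ → X) : CoAn (theSet O Z q t) := by
  have hdec : ∀ i, Measurable fun a => dec Z a i := fun i =>
    Measurable.exists fun j => measurable_const.and (hZ j).measurableSet.mem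
  have hc : Measurable fun a : X => fun p => dec Z a (Sum.inl p) :=
    measurable_pi_lambda _ fun p => hdec _
  have hPt : Measurable fun p : (X × ℕ) × X => Pt q (dec Z p.1.1) p.1.2 p.2 := by
    have : (fun p : (X × ℕ) × X => Pt q (dec Z p.1.1) p.1.2 p.2) =
        fun p => ∀ k, p.1.2 = k → Pt q (dec Z p.1.1) k p.2 := by
      ext p; simp
    rw [this]
    refine Measurable.forall fun k => Measurable.imp ?_ ?_
    · exact (measurable_of_countable (fun n : ℕ => n = k)).comp measurable_fst.snd
    · refine Measurable.forall fun m => Measurable.forall fun l =>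
        ((hdec _).comp measurable_fst.fst).imp ?_
      exact (measurableSet_le (f := fun p : (X × ℕ) × X => ‖p.2 - q m‖) (by fun_prop)
        measurable_const).mem
  have hV := fun b => coAn_V (fun i => (hO i).measurableSet) b
  refine CoAn.and (CoAn.of_measurable (Measurable.and ?_ ?_)) (CoAn.exists_nat
    (P := fun p : X × ℕ => (Pt q (dec Z p.1) p.2 p.1 ∧
      V O (fun i => dec Z p.1 (Sum.inl i)) p.1 [] false) ∧ ∀ l : ℕ, ∀ z : X,
        l < p.2 ∧ Pt q (dec Z p.1) l z → V O (fun i => dec Z p.1 (Sum.inl i)) z [] true)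
    (CoAn.and (CoAn.and ?_ ?_) ?_))
  · exact Measurable.forall fun k => Measurable.forall fun l => Measurable.exists fun m => hdec _
  · exact Measurable.forall fun n => Measurable.forall fun m => Measurable.forall fun i =>
      ((hdec i).comp (by fun_prop)).iff (hdec i)
  · exact CoAn.of_measurable (hPt.comp (measurable_id.prodMk measurable_fst))
  · exact (hV false).comp ((hc.comp measurable_fst).prodMk measurable_fst)
  · refine CoAn.forall (P := fun p : (X × ℕ) × ℕ => ∀ z : X, p.2 < p.1.2 ∧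
      Pt q (dec Z p.1.1) p.2 z → V O (fun i => dec Z p.1.1 (Sum.inl i)) z [] true) ?_
    refine CoAn.forall (P := fun p : ((X × ℕ) × ℕ) × X => p.1.2 < p.1.1.2 ∧
      Pt q (dec Z p.1.1.1) p.1.2 p.2 → V O (fun i => dec Z p.1.1.1 (Sum.inl i)) p.2 [] true) ?_
    refine CoAn.imp (Measurable.and ?_ ?_) ?_
    · exact (measurable_of_countable (fun n : ℕ × ℕ => n.1 < n.2)).comp
        (measurable_fst.snd.prodMk measurable_fst.fst.snd)
    · exact hPt.comp ((measurable_fst.fst.fst.prodMk measurable_fst.snd).prodMk measurable_snd)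
    · exact (hV true).comp ((hc.comp measurable_fst.fst.fst).prodMk measurable_snd)

lemma exists_trunc {ε : ℕ → ℝ} (h0 : ∀ j, 0 < ε j) (hanti : Antitone ε) (s : ℕ → X)
    (hs : ∀ k, ‖s k‖ ≤ ε (k + 1)) (j : ℕ) :
    ∃ S : Finset X, S.card ≤ j + 1 ∧ ∀ k, ∃ σ ∈ S, ‖s k - σ‖ ≤ ε (j + 1) := by
  classical
  refine ⟨insert 0 ((Finset.range j).image s), (Finset.card_insert_le _ _).trans ?_, fun k => ?_⟩
  · simpa using Finset.card_image_le (s := Finset.range j) (f := s)
  · by_cases hk : k < j
    · exact ⟨s k, by simp only [Finset.mem_insert, Finset.mem_image, Finset.mem_range]; grind,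
        by simpa using (h0 _).le⟩
    · exact ⟨0, by simp, by simpa using (hs k).trans (hanti (by omega))⟩

theorem main_normed [CompleteSpace X] [SecondCountableTopology X]
    (hX : ∀ ε > 0, ∃ x : X, x ≠ 0 ∧ ‖x‖ < ε) :
    ∃ A : Set X, AnalyticSet Aᶜ ∧ NullFinite A ∧
      ∀ B : Set X, MeasurableSet[borel X] B → NullFinite B → ¬ A ⊆ B := by
  classical
  borelize X
  obtain ⟨O, hO1, hO2⟩ := exists_basis X
  obtain ⟨ε, Z, h0, he0, h1, hZ, hhit, havoid⟩ := exists_scales hX fun j => (j + 1) ^ 3
  have hanti : Antitone ε := antitone_nat_of_succ_le fun j => by linarith [h1 j, h0 j]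
  have hsmall : ∀ j : ℕ, ε j ≤ 1 / (4 * (j + 1)) := by
    intro j
    induction j with
    | zero => simp [he0]
    | succ j ih =>
      refine (h1 j).trans ((div_le_div_of_nonneg_right ih (by norm_num)).trans ?_)
      rw [div_div, div_le_div_iff₀ (by positivity) (by positivity)]
      push_cast
      nlinarith [(Nat.cast_nonneg j : (0 : ℝ) ≤ j)]
  have hlim : Tendsto ε atTop (𝓝 0) := by
    refine squeeze_zero (fun j => (h0 j).le) (fun j => (hsmall j).trans ?_)
      tendsto_one_div_add_atTop_nhds_zero_nat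
    exact one_div_le_one_div_of_le (by positivity) (by linarith [(Nat.cast_nonneg j : (0 : ℝ) ≤ j)])
  choose t ht1 ht2 using fun n => hX (ε (n + 1)) (h0 _)
  have ht : Tendsto t atTop (𝓝 0) :=
    squeeze_zero_norm (fun n => (ht2 n).le) ((tendsto_add_atTop_iff_nat 1).2 hlim)
  let q := TopologicalSpace.denseSeq X
  refine ⟨{a | theSet O Z q t a}, (coAn_theSet hO1 hZ q t).analyticSet_compl,
    ⟨t, ht, fun x => ?_⟩, ?_⟩
  · rcases eq_empty_or_nonempty {n | x + t n ∈ {a | theSet O Z q t a}} with h | ⟨m, hm⟩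
    · rw [h]; exact finite_empty
    · have h2 : ∀ᶠ n in cofinite, t n ≠ t m := by
        rw [Nat.cofinite_eq_atTop]
        exact ht.eventually_ne (ht1 m).symm
      refine Finite.subset h2 fun n hn => ?_
      have e : x + t n = x + t m + (t n - t m) := by abel
      simpa using theSet_unique hm (e ▸ hn)
  · rintro B hB ⟨s, hs, hsB⟩ hAB
    obtain ⟨c, hc⟩ := exists_codes hO2 hB
    obtain ⟨φ, hφ, hφs⟩ := extraction_forall_of_eventually
      (P := fun k n => ‖s n‖ ≤ ε (k + 1)) fun k =>
        (tendsto_zero_iff_norm_tendsto_zero.1 hs).eventually (ge_mem_nhds (h0 _))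
    let P : ℕ → X := fun r => s (φ r.unpair.1) + (t r.unpair.2.unpair.1 - t r.unpair.2.unpair.2)
    have hP : ∀ j, ∃ S : Finset X, S.card ≤ (j + 1) ^ 3 ∧
        ∀ r, ∃ σ ∈ S, ‖P r - σ‖ ≤ 3 * ε (j + 1) := by
      intro j
      obtain ⟨S1, a1, a2⟩ := exists_trunc h0 hanti (fun k => s (φ k)) hφs j
      obtain ⟨S2, b1, b2⟩ := exists_trunc h0 hanti t (fun k => (ht2 k).le) j
      refine ⟨(S1 ×ˢ S2 ×ˢ S2).image fun z => z.1 + (z.2.1 - z.2.2),
        Finset.card_image_le.trans ?_, fun r => ?_⟩
      · rw [Finset.card_product, Finset.card_product]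
        calc _ ≤ (j + 1) * ((j + 1) * (j + 1)) := by gcongr
          _ = _ := by ring
      · obtain ⟨σ1, c1, d1⟩ := a2 r.unpair.1
        obtain ⟨σ2, c2, d2⟩ := b2 r.unpair.2.unpair.1
        obtain ⟨σ3, c3, d3⟩ := b2 r.unpair.2.unpair.2
        refine ⟨_, Finset.mem_image.2 ⟨(σ1, σ2, σ3), by simp [c1, c2, c3], rfl⟩, ?_⟩
        have e : P r - (σ1 + (σ2 - σ3)) = (s (φ r.unpair.1) - σ1) +
            ((t r.unpair.2.unpair.1 - σ2) - (t r.unpair.2.unpair.2 - σ3)) := by
          simp only [P]; abel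
        rw [e]
        refine (norm_add_le _ _).trans ?_
        linarith [norm_sub_le (t r.unpair.2.unpair.1 - σ2) (t r.unpair.2.unpair.2 - σ3)]
    let bit' : Idx → X → Prop := Sum.elim (fun p _ => c p)
      fun p b => ‖b + s (φ p.1) - q p.2.1‖ < 1 / (p.2.2 + 1)
    obtain ⟨x, xs, hx1, hx2⟩ := exists_encoding h0 h1 hhit havoid P hP
      fun i b => ∃ p : Idx, encode p = i ∧ bit' p b
    let y : Idx → Prop := fun p => bit' p (xs (encode p))
    have hy : ∀ k n m, dec Z (x + s (φ k) + (t n - t m)) = y := by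
      intro k n m
      funext p
      have := hx2 (Nat.pair k (Nat.pair n m)) (encode p)
      simp only [P, Nat.unpair_pair, encode_inj, exists_eq_left] at this
      rw [dec, add_assoc, this]
    have hy0 : ∀ k, dec Z (x + s (φ k)) = y := fun k => by simpa using hy k 0 0
    have hclose : ∀ k m l : ℕ, ‖x - xs (encode (Sum.inr (k, m, l) : Idx))‖ ≤ 1 / (2 * (l + 1)) := by
      intro k m l
      have a1 : l ≤ encode (Sum.inr (k, m, l) : Idx) := by
        have b1 := Nat.right_le_pair m l
        have b2 := Nat.right_le_pair k (Nat.pair m l)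
        simp only [encode_inr, encode_prod_val, encode_nat]
        omega
      refine (hx1 _).trans ((mul_le_mul_of_nonneg_left ((hanti a1).trans (hsmall l))
        (by norm_num)).trans (le_of_eq ?_))
      field_simp
      norm_num
    have hhalf : ∀ l : ℕ, (1 : ℝ) / (l + 1) = 2 * (1 / (2 * (l + 1))) := fun l => by field_simp
    have hrich : Rich y := by
      intro k l
      obtain ⟨m, hm⟩ := Metric.denseRange_iff.1 (TopologicalSpace.denseRange_denseSeq X)
        (x + s (φ k)) (1 / (2 * (l + 1))) (by positivity)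
      refine ⟨m, ?_⟩
      change ‖xs (encode (Sum.inr (k, m, l) : Idx)) + s (φ k) - q m‖ < 1 / (l + 1)
      have e : xs (encode (Sum.inr (k, m, l) : Idx)) + s (φ k) - q m =
        (x + s (φ k) - q m) - (x - xs (encode (Sum.inr (k, m, l) : Idx))) := by abel
      rw [dist_eq_norm] at hm
      rw [e, hhalf]
      refine (norm_sub_le _ _).trans_lt ?_
      linarith [hclose k m l]
    have hpt : ∀ k, Pt q y k (x + s (φ k)) := by
      intro k m l h
      change ‖xs (encode (Sum.inr (k, m, l) : Idx)) + s (φ k) - q m‖ < 1 / (l + 1) at h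
      have e : x + s (φ k) - q m = (xs (encode (Sum.inr (k, m, l) : Idx)) + s (φ k) - q m) +
        (x - xs (encode (Sum.inr (k, m, l) : Idx))) := by abel
      rw [e]
      refine (norm_add_le _ _).trans ?_
      have a1 := hclose k m l
      have a2 := hhalf l
      have a3 : (2 : ℝ) / (l + 1) = 2 * (1 / (l + 1)) := by ring
      have a4 : (0 : ℝ) < 1 / (2 * (l + 1)) := by positivity
      linarith
    have hex : ∃ k, x + s (φ k) ∉ B := by
      by_contra h
      push Not at h
      exact infinite_of_injective_forall_mem hφ.injective h (hsB x)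
    refine Nat.find_spec hex (hAB ?_)
    change theSet O Z q t _
    rw [theSet, hy0]
    refine ⟨⟨hrich, fun n m i => by rw [hy]⟩, Nat.find hex,
      ⟨hpt _, (hc _).2 (Nat.find_spec hex)⟩, fun l z hz => ?_⟩
    rw [hz.2.unique hrich (hpt l)]
    exact (hc _).1 (not_not.1 (Nat.find_min hex hz.1))

end Normed

theorem main (X : Type) [AddCommGroup X] [τ : TopologicalSpace X] [IsTopologicalAddGroup X]
    [PolishSpace X] :
    (∀ A : Set X, AnalyticSet Aᶜ → NullFinite A →
      ∃ B : Set X, MeasurableSet[borel X] B ∧ NullFinite B ∧ A ⊆ B) ↔ DiscreteTopology X := by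
  refine ⟨fun h => ?_, fun h A _ hA => ⟨A, ?_, hA, Subset.rfl⟩⟩
  · by_contra hd
    obtain ⟨N, hN⟩ := exists_groupNorm X
    have e : τ = N.toNormedAddCommGroup.toMetricSpace.toUniformSpace.toTopologicalSpace := by
      let _ := N.toNormedAddCommGroup
      refine IsTopologicalAddGroup.ext inferInstance inferInstance ?_
      refine hN.eq_of_same_basis ?_
      convert @Metric.nhds_basis_ball X N.toNormedAddCommGroup.toMetricSpace.toPseudoMetricSpace 0
        using 2 with ε
      ext x
      exact (mem_ball_zero_iff (a := x) (r := ε)).symm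
    subst e
    let _ := N.toNormedAddCommGroup
    have : CompleteSpace X := completeSpace_of_completelyMetrizable
    obtain ⟨A, h1, h2, h3⟩ := main_normed (X := X) (by
      intro ε hε
      by_contra hc
      push Not at hc
      apply hd
      rw [discreteTopology_iff_isOpen_singleton_zero]
      convert Metric.isOpen_ball (x := (0 : X)) (ε := ε)
      ext x
      simp only [mem_singleton_iff, mem_ball_zero_iff]
      exact ⟨fun h => by simpa [h] using hε, fun h => by_contra fun k => absurd (hc x k) (not_le.2 h)⟩)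
    obtain ⟨B, k1, k2, k3⟩ := h A h1 h2
    exact h3 B k1 k2 k3
  · exact MeasurableSpace.measurableSet_generateFrom (isOpen_discrete A)

end Pool.Agent.P.MP_ceb5ee_gt
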