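import Pool.Agent.P.MP_ceb5ee_gt.Main

open Pool.Agent.P.MP_ceb5ee_gt

/-- Earlier hand-in (now an instance of HaarOne): in an Abelian Polish group, every coanalytic
null-finite set lies in a Borel null-finite set if and only if the group is discrete. -/
theorem Pool.Agent.P.MP_ceb5ee_gt.variant_noHull
    (X : Type) [AddCommGroup X] [TopologicalSpace X] [IsTopologicalAddGroup X] [PolishSpace X] :
    (∀ A : Set X, MeasureTheory.AnalyticSet Aᶜ → NullFinite A →
      ∃ B : Set X, @MeasurableSet X (borel X) B ∧ NullFinite B ∧ A ⊆ B) ↔ DiscreteTopology X :=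
  main X
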